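import Pool.Agent.W888.VX.Rev

set_option autoImplicit false
set_option linter.unusedSectionVars false

/-!
Random graphs on the cube whose edges are almost antipodal.
-/

namespace Pool.Agent.W888.VX

open Finset
open Pool.Agent.W888.SX (cubeWt cubeWt_nonneg cubeWt_sum cubeWt_sum')

section

variable {V : Type} [Fintype V] [DecidableEq V]

theorem sum_pi {m : ℕ} {A : Type} [Fintype A] (f : Fin m → A → ℝ) :
    ∑ e : Fin m → A, ∏ j, f j (e j) = ∏ j, ∑ a, f j a := by
  have h := Finset.prod_univ_sum (fun _ : Fin m => (Finset.univ : Finset A)) f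
  rw [Fintype.piFinset_univ] at h
  exact h.symm

theorem sum_pow' {m : ℕ} {A : Type} [Fintype A] (W g : A → ℝ) :
    ∑ e : Fin m → A, (∏ j, W (e j)) * ∏ j, g (e j) = (∑ a, W a * g a) ^ m := by
  simp only [← Finset.prod_mul_distrib]
  rw [sum_pi (fun _ a => W a * g a), Finset.prod_const, card_univ, Fintype.card_fin]

theorem sum_lin {m : ℕ} {A : Type} [Fintype A] (W g : A → ℝ) (h1 : ∑ a, W a = 1) :
    ∑ e : Fin m → A, (∏ j, W (e j)) * ∑ j, g (e j) = m * ∑ a, W a * g a := by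
  have h2 : ∀ j : Fin m, ∑ e : Fin m → A, (∏ i, W (e i)) * g (e j) = ∑ a, W a * g a := by
    intro j
    have h3 : ∀ e : Fin m → A, (∏ i, W (e i)) * g (e j) =
        ∏ i, (W (e i) * (if i = j then g (e i) else 1)) := by
      intro e
      rw [Finset.prod_mul_distrib, Finset.prod_ite_eq' univ j (fun i => g (e i)),
        if_pos (mem_univ j)]
    simp only [h3]
    rw [sum_pi (fun i a => W a * (if i = j then g a else 1)), Finset.prod_eq_single j]
    · simp only [if_true]
    · intro i _ hi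
      simp only [if_neg hi, mul_one]
      exact h1
    · intro h
      exact absurd (mem_univ _) h
  simp only [Finset.mul_sum]
  rw [Finset.sum_comm]
  simp only [h2, ← Finset.mul_sum]
  rw [Finset.sum_const, card_univ, Fintype.card_fin, nsmul_eq_mul]

theorem exists_graph (W : V × V → ℝ) (hW0 : ∀ a, 0 ≤ W a) (hW1 : ∑ a, W a = 1) (m : ℕ)
    (φ : V × V → ℝ) (hφ : ∀ a, 0 ≤ φ a) (TT XX : Finset (Finset V)) (c q a K β : ℝ)
    (hc : ∀ T ∈ TT, c ≤ ∑ e, W e * (if e.1 ∈ T ∧ e.2 ∈ T then 1 else 0))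
    (hq : ∀ X ∈ XX, ∑ e, W e * (if e.1 ∈ X ∨ e.2 ∈ X then 1 else 0) ≤ q) (ha : 0 ≤ a)
    (hβ : 0 < β)
    (htot : TT.card * Real.exp (-(c * m)) + XX.card * Real.exp ((Real.exp a - 1) * q * m - K) +
      m * (∑ e, W e * φ e) / β + m * (∑ e, W e * (if e.1 = e.2 then 1 else 0)) < 1) :
    ∃ e : Fin m → V × V, (∀ T ∈ TT, ∃ j, (e j).1 ∈ T ∧ (e j).2 ∈ T) ∧
      (∀ X ∈ XX, a * (univ.filter fun j => (e j).1 ∈ X ∨ (e j).2 ∈ X).card ≤ K) ∧
      ∑ j, φ (e j) ≤ β ∧ ∀ j, (e j).1 ≠ (e j).2 := by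
  obtain ⟨f1, hf1⟩ : ∃ f1 : (Fin m → V × V) → ℝ, f1 = fun e =>
      ∑ T ∈ TT, ∏ j, (1 - if (e j).1 ∈ T ∧ (e j).2 ∈ T then 1 else 0) := ⟨_, rfl⟩
  obtain ⟨f2, hf2⟩ : ∃ f2 : (Fin m → V × V) → ℝ, f2 = fun e =>
      ∑ X ∈ XX, Real.exp (-K) * ∏ j, Real.exp (a * if (e j).1 ∈ X ∨ (e j).2 ∈ X then 1 else 0) :=
    ⟨_, rfl⟩
  obtain ⟨f3, hf3⟩ : ∃ f3 : (Fin m → V × V) → ℝ, f3 = fun e => (∑ j, φ (e j)) / β := ⟨_, rfl⟩
  obtain ⟨f4, hf4⟩ : ∃ f4 : (Fin m → V × V) → ℝ, f4 = fun e =>
      ∑ j, if (e j).1 = (e j).2 then 1 else 0 := ⟨_, rfl⟩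
  have hP0 : ∀ e : Fin m → V × V, 0 ≤ ∏ j, W (e j) := fun e => Finset.prod_nonneg fun j _ => hW0 _
  have hP1 : ∑ e : Fin m → V × V, ∏ j, W (e j) = 1 := by
    rw [sum_pi (fun _ => W)]
    simp only [hW1]
    exact Finset.prod_const_one
  have e1 : ∑ e : Fin m → V × V, (∏ j, W (e j)) * f1 e ≤ TT.card * Real.exp (-(c * m)) := by
    rw [hf1]
    simp only [Finset.mul_sum]
    rw [Finset.sum_comm]
    have h1 : ∀ T ∈ TT, ∑ e : Fin m → V × V, (∏ j, W (e j)) *
        ∏ j, (1 - if (e j).1 ∈ T ∧ (e j).2 ∈ T then 1 else 0) ≤ Real.exp (-(c * m)) := by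
      intro T hT
      rw [sum_pow' W (fun a => 1 - if a.1 ∈ T ∧ a.2 ∈ T then 1 else 0)]
      have h2 : ∑ a, W a * (1 - if a.1 ∈ T ∧ a.2 ∈ T then 1 else 0) ≤ Real.exp (-c) := by
        simp only [mul_sub, mul_one]
        rw [Finset.sum_sub_distrib, hW1]
        have h3 := Real.add_one_le_exp (-c)
        have h4 := hc T hT
        linarith
      have h3 : 0 ≤ ∑ a, W a * (1 - if a.1 ∈ T ∧ a.2 ∈ T then 1 else 0) :=
        Finset.sum_nonneg fun a _ => mul_nonneg (hW0 a) (by split_ifs <;> norm_num)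
      refine (pow_le_pow_left₀ h3 h2 m).trans (le_of_eq ?_)
      rw [← Real.exp_nat_mul]
      congr 1
      ring
    refine (Finset.sum_le_sum h1).trans (le_of_eq ?_)
    rw [Finset.sum_const, nsmul_eq_mul]
  have e2 : ∑ e : Fin m → V × V, (∏ j, W (e j)) * f2 e ≤
      XX.card * Real.exp ((Real.exp a - 1) * q * m - K) := by
    rw [hf2]
    simp only [Finset.mul_sum]
    rw [Finset.sum_comm]
    have h1 : ∀ X ∈ XX, ∑ e : Fin m → V × V, (∏ j, W (e j)) *
        (Real.exp (-K) * ∏ j, Real.exp (a * if (e j).1 ∈ X ∨ (e j).2 ∈ X then 1 else 0)) ≤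
        Real.exp ((Real.exp a - 1) * q * m - K) := by
      intro X hX
      have h2 : ∀ e : Fin m → V × V, (∏ j, W (e j)) *
          (Real.exp (-K) * ∏ j, Real.exp (a * if (e j).1 ∈ X ∨ (e j).2 ∈ X then 1 else 0)) =
          Real.exp (-K) * ((∏ j, W (e j)) *
            ∏ j, Real.exp (a * if (e j).1 ∈ X ∨ (e j).2 ∈ X then 1 else 0)) := by
        intro e
        ring
      simp only [h2]
      rw [← Finset.mul_sum, sum_pow' W (fun d => Real.exp (a * if d.1 ∈ X ∨ d.2 ∈ X then 1 else 0))]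
      have h3 : ∑ d, W d * Real.exp (a * if d.1 ∈ X ∨ d.2 ∈ X then 1 else 0) ≤
          Real.exp ((Real.exp a - 1) * q) := by
        have h4 : ∀ d : V × V, W d * Real.exp (a * if d.1 ∈ X ∨ d.2 ∈ X then 1 else 0) =
            W d + (Real.exp a - 1) * (W d * if d.1 ∈ X ∨ d.2 ∈ X then 1 else 0) := by
          intro d
          split_ifs
          · rw [mul_one]
            ring
          · rw [mul_zero, Real.exp_zero]
            ring
        simp only [h4]
        rw [Finset.sum_add_distrib, hW1, ← Finset.mul_sum]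
        have h5 := Real.add_one_le_exp ((Real.exp a - 1) * q)
        have h6 : 0 ≤ Real.exp a - 1 := by
          have := Real.one_le_exp ha
          linarith
        have h7 := mul_le_mul_of_nonneg_left (hq X hX) h6
        linarith
      have h4 : 0 ≤ ∑ d, W d * Real.exp (a * if d.1 ∈ X ∨ d.2 ∈ X then 1 else 0) :=
        Finset.sum_nonneg fun d _ => mul_nonneg (hW0 d) (Real.exp_pos _).le
      have h5 := pow_le_pow_left₀ h4 h3 m
      rw [← Real.exp_nat_mul] at h5
      have h6 := mul_le_mul_of_nonneg_left h5 (Real.exp_pos (-K)).le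
      rw [← Real.exp_add] at h6
      refine h6.trans (le_of_eq ?_)
      congr 1
      ring
    refine (Finset.sum_le_sum h1).trans (le_of_eq ?_)
    rw [Finset.sum_const, nsmul_eq_mul]
  have e3 : ∑ e : Fin m → V × V, (∏ j, W (e j)) * f3 e = m * (∑ e, W e * φ e) / β := by
    rw [hf3]
    simp only [← mul_div_assoc]
    rw [← Finset.sum_div, sum_lin W φ hW1]
  have e4 : ∑ e : Fin m → V × V, (∏ j, W (e j)) * f4 e =
      m * (∑ e, W e * (if e.1 = e.2 then 1 else 0)) := by
    rw [hf4]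
    exact sum_lin W (fun e => if e.1 = e.2 then 1 else 0) hW1
  obtain ⟨e, he⟩ : ∃ e : Fin m → V × V, f1 e + f2 e + f3 e + f4 e < 1 := by
    by_contra hcon
    push Not at hcon
    have h1 : ∑ e : Fin m → V × V, (∏ j, W (e j)) * 1 ≤
        ∑ e : Fin m → V × V, (∏ j, W (e j)) * (f1 e + f2 e + f3 e + f4 e) :=
      Finset.sum_le_sum fun e _ => mul_le_mul_of_nonneg_left (hcon e) (hP0 e)
    simp only [mul_add, Finset.sum_add_distrib, mul_one] at h1
    rw [hP1] at h1
    linarith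
  have g1 : ∀ T ∈ TT, 0 ≤ ∏ j, (1 - if (e j).1 ∈ T ∧ (e j).2 ∈ T then (1 : ℝ) else 0) := fun T _ =>
    Finset.prod_nonneg fun j _ => by split_ifs <;> norm_num
  have g2 : ∀ X ∈ XX, 0 ≤ Real.exp (-K) *
      ∏ j, Real.exp (a * if (e j).1 ∈ X ∨ (e j).2 ∈ X then 1 else 0) := fun X _ =>
    mul_nonneg (Real.exp_pos _).le (Finset.prod_nonneg fun j _ => (Real.exp_pos _).le)
  have p1 : 0 ≤ f1 e := by
    rw [hf1]
    exact Finset.sum_nonneg g1
  have p2 : 0 ≤ f2 e := by
    rw [hf2]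
    exact Finset.sum_nonneg g2
  have p3 : 0 ≤ f3 e := by
    rw [hf3]
    exact div_nonneg (Finset.sum_nonneg fun j _ => hφ _) hβ.le
  have p4 : 0 ≤ f4 e := by
    rw [hf4]
    exact Finset.sum_nonneg fun j _ => by split_ifs <;> norm_num
  refine ⟨e, fun T hT => ?_, fun X hX => ?_, ?_, fun j hj => ?_⟩
  · by_contra hcon
    push Not at hcon
    have h1 := Finset.single_le_sum g1 hT
    have h2 : ∏ j, (1 - if (e j).1 ∈ T ∧ (e j).2 ∈ T then (1 : ℝ) else 0) = 1 := by
      refine Finset.prod_eq_one fun j _ => ?_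
      rw [if_neg fun h => hcon j h.1 h.2, sub_zero]
    rw [h2] at h1
    have h3 : f1 e < 1 := by linarith
    rw [hf1] at h3
    linarith
  · have h1 := Finset.single_le_sum g2 hX
    have h3 : f2 e < 1 := by linarith
    rw [hf2] at h3
    have h4 := h1.trans_lt h3
    rw [← Real.exp_sum, ← Finset.mul_sum, Finset.sum_boole, ← Real.exp_add,
      Real.exp_lt_one_iff] at h4
    linarith
  · have h3 : f3 e < 1 := by linarith
    rw [hf3] at h3
    beta_reduce at h3
    rw [div_lt_one hβ] at h3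
    exact h3.le
  · have h3 : f4 e < 1 := by linarith
    rw [hf4] at h3
    have h4 := Finset.single_le_sum (f := fun j => if (e j).1 = (e j).2 then (1 : ℝ) else 0)
      (fun j _ => by split_ifs <;> norm_num) (mem_univ j)
    beta_reduce at h4
    rw [if_pos hj] at h4
    linarith

theorem sum_image {m : ℕ} {A : Type} [DecidableEq A] (e : Fin m → A) (g : A → ℝ)
    (hg : ∀ a, 0 ≤ g a) : ∑ a ∈ univ.image e, g a ≤ ∑ j, g (e j) := by
  rw [← Finset.sum_fiberwise_of_maps_to (s := univ) (t := univ.image e) (g := e)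
    (fun j _ => Finset.mem_image_of_mem e (mem_univ j)) (fun j => g (e j))]
  refine Finset.sum_le_sum fun a ha => ?_
  obtain ⟨j, -, rfl⟩ := Finset.mem_image.1 ha
  exact Finset.single_le_sum (f := fun i => g (e i)) (fun i _ => hg _)
    (Finset.mem_filter.2 ⟨mem_univ j, rfl⟩)

end

/-- The graph. -/
theorem exists_cube (ε ε' θ : ℝ) (hε : 0 < ε) (hε' : 0 < ε') (hε'4 : ε' ≤ 1 / 4) (hθ : 0 < θ) :
    ∃ (M : ℕ) (ξ : ℝ), 0 < ξ ∧ ∀ κ : ℝ, 0 ≤ κ → ∃ R0 : ℕ, 0 < R0 ∧ ∀ R : ℕ, R0 ≤ R →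
      ∀ φ : (Fin R → Bool) × (Fin R → Bool) → ℝ, (∀ a, 0 ≤ φ a) →
      (∀ v, ∑ w, cubeWt (1 - ε') v w * φ (v, w) ≤ κ / R) →
      ∃ E : Finset ((Fin R → Bool) × (Fin R → Bool)), E.card ≤ M * 2 ^ R ∧
        (∀ a ∈ E, a.1 ≠ a.2) ∧
        (∀ T : Finset (Fin R → Bool), ε * 2 ^ R ≤ T.card → ∃ a ∈ E, a.1 ∈ T ∧ a.2 ∈ T) ∧
        (∀ X : Finset (Fin R → Bool), (X.card : ℝ) ≤ ξ * 2 ^ R →
          ((E.filter fun a => a.1 ∈ X ∨ a.2 ∈ X).card : ℝ) ≤ θ * 2 ^ R) ∧
        ∑ a ∈ E, φ a ≤ θ * 2 ^ R := by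
  obtain ⟨C, hC⟩ : ∃ C : ℕ, 1 ≤ 2 * ε' ^ 2 * C := by
    obtain ⟨C, hC⟩ := exists_nat_ge (1 / (2 * ε' ^ 2))
    refine ⟨C, ?_⟩
    rw [div_le_iff₀ (by positivity)] at hC
    linarith
  obtain ⟨c, hc⟩ : ∃ c : ℝ, c = ε ^ C * ε ^ C := ⟨_, rfl⟩
  have hc0 : 0 < c := by rw [hc]; positivity
  obtain ⟨M, hM⟩ : ∃ M : ℕ, 3 ≤ c * M ∧ 1 ≤ M := by
    obtain ⟨M, hM⟩ := exists_nat_ge (3 / c)
    rw [div_le_iff₀ hc0] at hM
    refine ⟨M + 1, ?_, by omega⟩
    push_cast
    linarith
  obtain ⟨hM3, hM1⟩ := hM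
  have hM0 : (1 : ℝ) ≤ M := by exact_mod_cast hM1
  have hMpos : (0 : ℝ) < M := by linarith
  obtain ⟨a, ha⟩ : ∃ a : ℝ, a = 3 / θ := ⟨_, rfl⟩
  have ha0 : 0 < a := by rw [ha]; positivity
  have hea := Real.exp_pos a
  refine ⟨M, 1 / (2 * M * Real.exp a), by positivity, fun κ hκ => ?_⟩
  refine ⟨3 + 4 * M + ⌈4 * M * κ / θ⌉₊, by omega, fun R hR φ hφ0 hφ => ?_⟩
  have hRpos : 0 < R := by omega
  have hR0 : (0 : ℝ) < R := by exact_mod_cast hRpos
  have hR4M : 4 * (M : ℝ) ≤ R := by exact_mod_cast (by omega : 4 * M ≤ R)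
  have hR3 : (3 : ℝ) ≤ R := by exact_mod_cast (by omega : 3 ≤ R)
  have hRκ : 4 * M * κ / θ ≤ R := by
    have h1 : 4 * M * κ / θ ≤ ((⌈4 * M * κ / θ⌉₊ : ℕ) : ℝ) := Nat.le_ceil _
    have h2 : ((⌈4 * M * κ / θ⌉₊ : ℕ) : ℝ) ≤ R := by
      exact_mod_cast (by omega : ⌈4 * M * κ / θ⌉₊ ≤ R)
    exact h1.trans h2
  obtain ⟨n, hn⟩ : ∃ n : ℝ, n = 2 ^ R := ⟨_, rfl⟩
  have hn0 : 0 < n := by rw [hn]; positivity
  have hnR : (R : ℝ) ≤ n := by
    rw [hn]
    exact_mod_cast (Nat.lt_two_pow_self (n := R)).le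
  have hn7 : 7 ≤ n := by
    rw [hn]
    have h1 : (2 : ℝ) ^ 3 ≤ 2 ^ R := pow_le_pow_right₀ (by norm_num) (by omega)
    norm_num at h1
    linarith
  obtain ⟨W, hW⟩ : ∃ W : (Fin R → Bool) × (Fin R → Bool) → ℝ,
      W = fun e => cubeWt (1 - ε') e.1 e.2 / 2 ^ R := ⟨_, rfl⟩
  have hwt0 : ∀ v w : Fin R → Bool, 0 ≤ cubeWt (1 - ε') v w :=
    cubeWt_nonneg (by linarith) (by linarith)
  have hW0 : ∀ e, 0 ≤ W e := fun e => by
    rw [hW]
    exact div_nonneg (hwt0 _ _) (by positivity)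
  have hWsum : ∀ g : (Fin R → Bool) × (Fin R → Bool) → ℝ, ∑ e, W e * g e =
      (∑ v, ∑ w, cubeWt (1 - ε') v w * g (v, w)) / 2 ^ R := by
    intro g
    rw [hW, Fintype.sum_prod_type, Finset.sum_div]
    refine Finset.sum_congr rfl fun v _ => ?_
    rw [Finset.sum_div]
    exact Finset.sum_congr rfl fun w _ => by ring
  have hcardV : ∀ a : ℝ, ∑ _v : Fin R → Bool, a = 2 ^ R * a := by
    intro a
    rw [Finset.sum_const, card_univ, Fintype.card_fun, Fintype.card_bool, Fintype.card_fin,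
      nsmul_eq_mul]
    push_cast
    rfl
  have hW1 : ∑ e, W e = 1 := by
    have h1 := hWsum fun _ => 1
    simp only [mul_one, cubeWt_sum] at h1
    rw [h1, hcardV, mul_one, div_self (by positivity)]
  have hcardF : ∀ F : Finset (Finset (Fin R → Bool)), (F.card : ℝ) ≤ Real.exp n := by
    intro F
    have h1 : F.card ≤ 2 ^ 2 ^ R := by
      refine (Finset.card_le_univ F).trans (le_of_eq ?_)
      rw [Fintype.card_finset, Fintype.card_fun, Fintype.card_bool, Fintype.card_fin]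
    have h2 : (F.card : ℝ) ≤ 2 ^ 2 ^ R := by exact_mod_cast h1
    refine h2.trans ?_
    have h3 : Real.exp n = (Real.exp 1) ^ (2 ^ R : ℕ) := by
      rw [← Real.exp_nat_mul, hn]
      push_cast
      rw [mul_one]
    rw [h3]
    refine pow_le_pow_left₀ (by norm_num) ?_ _
    have := Real.add_one_le_exp (1 : ℝ)
    linarith
  have hexpn : Real.exp (-n) ≤ 1 / 8 := by
    rw [Real.exp_neg, ← one_div]
    refine one_div_le_one_div_of_le (by norm_num) ?_
    have := Real.add_one_le_exp n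
    linarith
  obtain ⟨e, g1, g2, g3, g4⟩ := exists_graph W hW0 hW1 (M * 2 ^ R) φ hφ0
    (univ.filter fun T => ε * n ≤ T.card)
    (univ.filter fun X => (X.card : ℝ) ≤ 1 / (2 * M * Real.exp a) * n) c
    (2 * (1 / (2 * M * Real.exp a))) a (3 * n) (θ * n)
    (by
      intro T hT
      rw [mem_filter] at hT
      have h1 := rev C ε' hε' (by linarith) hC R (fun v => if v ∈ T then 1 else 0)
        (fun v => if v ∈ T then 1 else 0) (fun v => by split_ifs <;> norm_num)
        (fun v => by split_ifs <;> norm_num) (fun v => by split_ifs <;> norm_num)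
        (fun v => by split_ifs <;> norm_num)
      rw [Finset.sum_ite_mem, Finset.univ_inter, Finset.sum_const, nsmul_eq_mul, mul_one] at h1
      have h2 : ε ≤ (T.card : ℝ) / 2 ^ R := by
        rw [le_div_iff₀ (by positivity), ← hn]
        exact hT.2
      have h3 : ε ^ C ≤ ((T.card : ℝ) / 2 ^ R) ^ C := pow_le_pow_left₀ hε.le h2 C
      rw [hWsum, hc]
      refine (mul_le_mul h3 h3 (by positivity) (by positivity)).trans (h1.trans (le_of_eq ?_))
      congr 1
      refine Finset.sum_congr rfl fun v _ => Finset.sum_congr rfl fun w _ => ?_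
      by_cases hv : v ∈ T <;> by_cases hw : w ∈ T <;> simp [hv, hw])
    (by
      intro X hX
      rw [mem_filter] at hX
      rw [hWsum]
      have h1 : ∑ v : Fin R → Bool, ∑ w : Fin R → Bool, cubeWt (1 - ε') v w *
          (if (v, w).1 ∈ X ∨ (v, w).2 ∈ X then 1 else 0) ≤
          ∑ v : Fin R → Bool, ∑ w : Fin R → Bool, (cubeWt (1 - ε') v w * (if v ∈ X then 1 else 0) +
            cubeWt (1 - ε') v w * (if w ∈ X then 1 else 0)) := by
        refine Finset.sum_le_sum fun v _ => Finset.sum_le_sum fun w _ => ?_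
        rw [← mul_add]
        refine mul_le_mul_of_nonneg_left ?_ (hwt0 v w)
        by_cases hv : v ∈ X <;> by_cases hw : w ∈ X <;> simp [hv, hw]
      have h2 : ∑ v : Fin R → Bool, ∑ w : Fin R → Bool, cubeWt (1 - ε') v w *
          (if v ∈ X then (1 : ℝ) else 0) = X.card := by
        simp only [← Finset.sum_mul, cubeWt_sum, one_mul]
        rw [Finset.sum_ite_mem, Finset.univ_inter, Finset.sum_const, nsmul_eq_mul, mul_one]
      have h3 : ∑ v : Fin R → Bool, ∑ w : Fin R → Bool, cubeWt (1 - ε') v w *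
          (if w ∈ X then (1 : ℝ) else 0) = X.card := by
        rw [Finset.sum_comm]
        simp only [← Finset.sum_mul, cubeWt_sum', one_mul]
        rw [Finset.sum_ite_mem, Finset.univ_inter, Finset.sum_const, nsmul_eq_mul, mul_one]
      simp only [Finset.sum_add_distrib] at h1
      rw [h2, h3] at h1
      rw [div_le_iff₀ (by positivity)]
      refine h1.trans ?_
      rw [← hn]
      linarith [hX.2])
    ha0.le (by positivity)
    (by
      have t1 : ((univ.filter fun T : Finset (Fin R → Bool) => ε * n ≤ T.card).card : ℝ) *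
          Real.exp (-(c * ((M * 2 ^ R : ℕ) : ℝ))) ≤ 1 / 8 := by
        have h1 : Real.exp (-(c * ((M * 2 ^ R : ℕ) : ℝ))) ≤ Real.exp (-(3 * n)) := by
          rw [Real.exp_le_exp]
          push_cast
          rw [← hn]
          nlinarith
        have h2 := mul_le_mul (hcardF (univ.filter fun T : Finset (Fin R → Bool) =>
          ε * n ≤ T.card)) h1 (Real.exp_pos _).le (Real.exp_pos _).le
        refine h2.trans ?_
        rw [← Real.exp_add]
        refine le_trans ?_ hexpn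
        rw [Real.exp_le_exp]
        linarith
      have t2 : ((univ.filter fun X : Finset (Fin R → Bool) =>
          (X.card : ℝ) ≤ 1 / (2 * M * Real.exp a) * n).card : ℝ) *
          Real.exp ((Real.exp a - 1) * (2 * (1 / (2 * M * Real.exp a))) * ((M * 2 ^ R : ℕ) : ℝ) -
            3 * n) ≤ 1 / 8 := by
        have h1 : Real.exp ((Real.exp a - 1) * (2 * (1 / (2 * M * Real.exp a))) *
            ((M * 2 ^ R : ℕ) : ℝ) - 3 * n) ≤ Real.exp (-(2 * n)) := by
          rw [Real.exp_le_exp]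
          push_cast
          rw [← hn]
          have h2 : (Real.exp a - 1) * (2 * (1 / (2 * M * Real.exp a))) * (M * n) =
              n - n / Real.exp a := by
            field_simp
          rw [h2]
          have : 0 < n / Real.exp a := by positivity
          linarith
        have h2 := mul_le_mul (hcardF (univ.filter fun X : Finset (Fin R → Bool) =>
          (X.card : ℝ) ≤ 1 / (2 * M * Real.exp a) * n)) h1 (Real.exp_pos _).le (Real.exp_pos _).le
        refine h2.trans ?_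
        rw [← Real.exp_add]
        refine le_trans ?_ hexpn
        rw [Real.exp_le_exp]
        linarith
      have t3 : ((M * 2 ^ R : ℕ) : ℝ) * (∑ e, W e * φ e) / (θ * n) ≤ 1 / 4 := by
        have h1 : ∑ e, W e * φ e ≤ κ / R := by
          rw [hWsum, div_le_iff₀ (by positivity)]
          refine (Finset.sum_le_sum fun v _ => hφ v).trans (le_of_eq ?_)
          rw [hcardV]
          ring
        push_cast
        rw [← hn, div_le_iff₀ (by positivity)]
        have h2 : M * n * ∑ e, W e * φ e ≤ M * n * (κ / R) :=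
          mul_le_mul_of_nonneg_left h1 (by positivity)
        refine h2.trans ?_
        rw [div_le_iff₀ hθ] at hRκ
        have h3 : M * (κ / R) ≤ 1 / 4 * θ := by
          rw [← mul_div_assoc, div_le_iff₀ hR0]
          linarith
        have h4 := mul_le_mul_of_nonneg_left h3 hn0.le
        linarith
      have t4 : ((M * 2 ^ R : ℕ) : ℝ) * (∑ e, W e * (if e.1 = e.2 then 1 else 0)) ≤ 1 / 4 := by
        have h1 : ∑ e, W e * (if e.1 = e.2 then 1 else 0) = ε' ^ R := by
          rw [hWsum]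
          have h2 : ∀ v : Fin R → Bool, ∑ w, cubeWt (1 - ε') v w *
              (if (v, w).1 = (v, w).2 then 1 else 0) = ε' ^ R := by
            intro v
            rw [Finset.sum_eq_single v]
            · rw [if_pos rfl, mul_one]
              unfold cubeWt
              simp only [if_true, sub_sub_cancel]
              rw [Finset.prod_const, card_univ, Fintype.card_fin]
            · intro w _ hw
              rw [if_neg (fun h => hw h.symm), mul_zero]
            · intro h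
              exact absurd (mem_univ _) h
          simp only [h2]
          rw [hcardV, mul_div_cancel_left₀ _ (by positivity)]
        rw [h1]
        push_cast
        have h2 : (2 : ℝ) ^ R * ε' ^ R ≤ 1 / n := by
          rw [← mul_pow, hn, one_div, ← inv_pow]
          refine pow_le_pow_left₀ (by positivity) ?_ R
          linarith
        have h3 : (M : ℝ) * (2 ^ R * ε' ^ R) ≤ M * (1 / n) :=
          mul_le_mul_of_nonneg_left h2 hMpos.le
        have h4 : (M : ℝ) * (1 / n) ≤ 1 / 4 := by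
          rw [mul_one_div, div_le_iff₀ hn0]
          linarith
        linarith
      linarith)
  refine ⟨univ.image e, ?_, ?_, ?_, ?_, ?_⟩
  · refine Finset.card_image_le.trans (le_of_eq ?_)
    rw [card_univ, Fintype.card_fin]
  · intro b hb
    obtain ⟨j, -, rfl⟩ := Finset.mem_image.1 hb
    exact g4 j
  · intro T hT
    obtain ⟨j, hj⟩ := g1 T (by
      rw [mem_filter, hn]
      exact ⟨mem_univ _, hT⟩)
    exact ⟨e j, Finset.mem_image_of_mem e (mem_univ j), hj⟩
  · intro X hX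
    have h1 := g2 X (by
      rw [mem_filter, hn]
      exact ⟨mem_univ _, hX⟩)
    have h2 := sum_image e (fun b => if b.1 ∈ X ∨ b.2 ∈ X then (1 : ℝ) else 0)
      (fun b => by split_ifs <;> norm_num)
    rw [Finset.sum_boole, Finset.sum_boole] at h2
    refine h2.trans ?_
    rw [ha, div_mul_eq_mul_div, div_le_iff₀ hθ] at h1
    rw [← hn]
    linarith
  · rw [← hn]
    exact (sum_image e φ hφ0).trans g3

end Pool.Agent.W888.VX
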