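import Pool.Agent.W888.SX.Cube

set_option autoImplicit false
set_option linter.unusedSectionVars false

/-!
Vectors for vertex cover on graphs of almost antipodal points of the cube.
-/

namespace Pool.Agent.W888.VX

open Finset Matrix
open Pool.Agent.H562R2 (sg sg_mul_self sum_prod_cube)
open Pool.Agent.W888.SX (cubeWt cubeWt_nonneg cubeWt_sum ip ip_mean sg_one pts)

/-- the remainder of the first order expansion of the power `n + 1` at `b` -/
def rem (n : ℕ) (u b : ℝ) : ℝ := u ^ (n + 1) - b ^ (n + 1) - (n + 1) * b ^ n * (u - b)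

theorem rem_zero (u b : ℝ) : rem 0 u b = 0 := by
  unfold rem
  simp

theorem rem_succ (n : ℕ) (u b : ℝ) :
    rem (n + 1) u b = u * rem n u b + (n + 1) * b ^ n * (u - b) ^ 2 := by
  unfold rem
  push_cast
  ring

theorem rem_nonneg' (n : ℕ) (u b : ℝ) (hu : 0 ≤ u) (hb : 0 ≤ b) : 0 ≤ rem n u b := by
  induction n with
  | zero => rw [rem_zero]
  | succ n ih =>
    rw [rem_succ]
    positivity

theorem rem_nonneg (n : ℕ) (hn : Even (n + 1)) (u b : ℝ) (hb : 0 ≤ b) : 0 ≤ rem n u b := by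
  refine (rem_nonneg' n |u| b (abs_nonneg u) hb).trans ?_
  unfold rem
  rw [hn.pow_abs]
  have h1 : (n + 1 : ℝ) * b ^ n * (u - b) ≤ (n + 1) * b ^ n * (|u| - b) :=
    mul_le_mul_of_nonneg_left (by linarith [le_abs_self u]) (by positivity)
  linarith

theorem rem_abs (n : ℕ) (u b : ℝ) (hu : |u| ≤ 1) (hb : 0 ≤ b) (hb1 : b ≤ 1) :
    |rem n u b| ≤ (n + 1) ^ 2 * (u - b) ^ 2 := by
  induction n with
  | zero =>
    rw [rem_zero, abs_zero]
    positivity
  | succ n ih =>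
    rw [rem_succ]
    refine (abs_add_le _ _).trans ?_
    have h1 : |u * rem n u b| ≤ 1 * ((n + 1) ^ 2 * (u - b) ^ 2) := by
      rw [abs_mul]
      exact mul_le_mul hu ih (abs_nonneg _) zero_le_one
    have h2 : |(n + 1) * b ^ n * (u - b) ^ 2| ≤ (n + 1) * 1 * (u - b) ^ 2 := by
      rw [abs_of_nonneg (by positivity)]
      have : b ^ n ≤ 1 := pow_le_one₀ hb hb1
      gcongr
    have h3 : 0 ≤ (u - b) ^ 2 := sq_nonneg _
    have h4 : (0 : ℝ) ≤ n := Nat.cast_nonneg _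
    push_cast
    nlinarith [mul_nonneg h4 h3]

theorem rem_le (n : ℕ) (u b : ℝ) (hu : |u| ≤ 1) (hb : 0 ≤ b) (hb1 : b ≤ 1) :
    rem n u b ≤ (n + 1) ^ 2 * (u - b) ^ 2 :=
  (le_abs_self _).trans (rem_abs n u b hu hb hb1)

theorem pts_tri2 {V D : Type} [Fintype D] (z : D → ℝ) (x : V → D → ℝ) (p : ℝ) (hp0 : 0 ≤ p)
    (hp1 : p ≤ 1) (hz : z ⬝ᵥ z = 1) (hx : ∀ v, x v ⬝ᵥ x v = p) (hzx : ∀ v, z ⬝ᵥ x v = p)
    (hpos : ∀ v w, 0 ≤ x v ⬝ᵥ x w) (hunc : ∀ v w, 0 ≤ 1 - 2 * p + x v ⬝ᵥ x w)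
    (htri : ∀ v w u, x v ⬝ᵥ x w + x v ⬝ᵥ x u ≤ p + x w ⬝ᵥ x u) (i j k : Option (Option V)) :
    0 ≤ (pts z x i - pts z x j) ⬝ᵥ (pts z x i - pts z x k) := by
  have hxz : ∀ v, x v ⬝ᵥ z = p := fun v => by rw [dotProduct_comm, hzx]
  have hle : ∀ v w, x v ⬝ᵥ x w ≤ p := by
    intro v w
    have h1 := htri v w w
    have h2 := hpos v w
    rw [hx] at h1
    linarith
  rcases i with - | - | i <;> rcases j with - | - | j <;> rcases k with - | - | k <;>
    simp only [pts, sub_dotProduct, dotProduct_sub, dotProduct_zero, zero_dotProduct, hz, hx, hzx,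
      hxz] <;>
    first
    | linarith
    | linarith [hpos j k]
    | linarith [hunc j k]
    | linarith [hle i j, hle j i]
    | linarith [hle i k, hle k i]
    | linarith [htri i j k, dotProduct_comm (x i) (x j)]

theorem pm_tri (a b c : ℝ) (ha : a = 1 ∨ a = -1) (hb : b = 1 ∨ b = -1) (hc : c = 1 ∨ c = -1) :
    a * b + a * c ≤ 1 + b * c := by
  rcases ha with rfl | rfl <;> rcases hb with rfl | rfl <;> rcases hc with rfl | rfl <;> norm_num

section

variable {R : ℕ}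

/-- the coordinates of a tensor power -/
def sgp {N : ℕ} (v : Fin R → Bool) (τ : Fin N → Fin R) : ℝ := ∏ j, sg (v (τ j))

theorem sgp_one {N : ℕ} (v : Fin R → Bool) (τ : Fin N → Fin R) : sgp v τ = 1 ∨ sgp v τ = -1 := by
  unfold sgp
  refine Finset.prod_induction _ (fun a : ℝ => a = 1 ∨ a = -1) ?_ (Or.inl rfl) fun j _ => sg_one _
  rintro a b (rfl | rfl) (rfl | rfl) <;> norm_num

theorem ip_pow (N : ℕ) (v w : Fin R → Bool) :
    ip v w ^ N = ∑ τ : Fin N → Fin R, sgp v τ * sgp w τ := by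
  unfold ip sgp
  rw [Fintype.sum_pow]
  simp only [Finset.prod_mul_distrib]

theorem ip_tri (N : ℕ) (v w u : Fin R → Bool) :
    ip v w ^ N + ip v u ^ N ≤ R ^ N + ip w u ^ N := by
  rw [ip_pow, ip_pow, ip_pow, ← Finset.sum_add_distrib]
  have h1 : (R : ℝ) ^ N = ∑ _τ : Fin N → Fin R, (1 : ℝ) := by
    rw [Finset.sum_const, card_univ, Fintype.card_fun, Fintype.card_fin, Fintype.card_fin,
      nsmul_eq_mul, mul_one]
    push_cast
    rfl
  rw [h1, ← Finset.sum_add_distrib]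
  exact Finset.sum_le_sum fun τ _ => pm_tri _ _ _ (sgp_one v τ) (sgp_one w τ) (sgp_one u τ)

theorem ip_self (v : Fin R → Bool) : ip v v = R := by
  unfold ip
  simp only [sg_mul_self]
  rw [Finset.sum_const, card_univ, Fintype.card_fin, nsmul_eq_mul, mul_one]

theorem ip_abs (v w : Fin R → Bool) : |ip v w| ≤ R := by
  unfold ip
  refine (Finset.abs_sum_le_sum_abs _ _).trans (le_of_eq ?_)
  have h1 : ∀ i : Fin R, |sg (v i) * sg (w i)| = 1 := by
    intro i
    cases v i <;> cases w i <;> simp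
  simp only [h1]
  rw [Finset.sum_const, card_univ, Fintype.card_fin, nsmul_eq_mul, mul_one]

theorem ip_comm (v w : Fin R → Bool) : ip v w = ip w v := by
  unfold ip
  exact Finset.sum_congr rfl fun i _ => mul_comm _ _

/-- the vectors -/
theorem cube_vec (hR : 0 < R) (n : ℕ) (hn : Even (n + 1)) (b θ m p : ℝ) (hb : 0 ≤ b)
    (hθ0 : 0 ≤ θ) (hθ1 : θ ≤ 1) (hθ : θ * (1 + (n + 1) * b ^ n) = 1)
    (hm : m = (1 - θ) * b - θ * b ^ (n + 1)) (hp : p * (1 + m) = 1) (hp2 : 1 ≤ 2 * p)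
    (hp1 : p ≤ 1) :
    ∃ (D : Type) (_ : Fintype D) (z : D → ℝ) (x : (Fin R → Bool) → D → ℝ),
      z ⬝ᵥ z = 1 ∧ (∀ v, x v ⬝ᵥ x v = p) ∧ (∀ v, z ⬝ᵥ x v = p) ∧
      (∀ i j k, 0 ≤ (pts z x i - pts z x j) ⬝ᵥ (pts z x i - pts z x k)) ∧
      ∀ v w, (z - x v) ⬝ᵥ (z - x w) = (p - p ^ 2) * (θ * rem n (-(ip v w / R)) b) := by
  have hR0 : (0 : ℝ) < R := by exact_mod_cast hR
  obtain ⟨N, hN⟩ : ∃ N : ℕ, N = n + 1 := ⟨_, rfl⟩
  obtain ⟨q, hq⟩ : ∃ q : ℝ, q = p - p ^ 2 := ⟨_, rfl⟩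
  have hq0 : 0 ≤ q := by
    rw [hq]
    nlinarith
  obtain ⟨q1, hq1⟩ : ∃ q1 : ℝ, q1 = q * (1 - θ) / R := ⟨_, rfl⟩
  obtain ⟨q2, hq2⟩ : ∃ q2 : ℝ, q2 = q * θ / R ^ N := ⟨_, rfl⟩
  have hq10 : 0 ≤ q1 := by
    rw [hq1]
    exact div_nonneg (mul_nonneg hq0 (by linarith)) hR0.le
  have hq20 : 0 ≤ q2 := by
    rw [hq2]
    positivity
  obtain ⟨z, hz⟩ : ∃ z : Option (Fin R ⊕ (Fin N → Fin R)) → ℝ, z = fun d => d.elim 1 fun _ => 0 :=
    ⟨_, rfl⟩
  obtain ⟨x, hx⟩ : ∃ x : (Fin R → Bool) → Option (Fin R ⊕ (Fin N → Fin R)) → ℝ,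
      x = fun v d => d.elim p fun s => Sum.elim (fun i => Real.sqrt q1 * sg (v i))
        (fun τ => Real.sqrt q2 * sgp v τ) s := ⟨_, rfl⟩
  have hzz : z ⬝ᵥ z = 1 := by
    rw [hz, dotProduct, Fintype.sum_option]
    simp
  have hzx : ∀ v, z ⬝ᵥ x v = p := by
    intro v
    rw [hz, hx, dotProduct, Fintype.sum_option]
    simp
  obtain ⟨Q, hQ⟩ : ∃ Q : (Fin R → Bool) → (Fin R → Bool) → ℝ,
      Q = fun v w => (1 - θ) * (ip v w / R) + θ * (ip v w / R) ^ N := ⟨_, rfl⟩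
  have hdot : ∀ v w, x v ⬝ᵥ x w = p ^ 2 + q * Q v w := by
    intro v w
    rw [hx, hQ, dotProduct, Fintype.sum_option, Fintype.sum_sum_type]
    simp only [Option.elim_none, Option.elim_some, Sum.elim_inl, Sum.elim_inr]
    have e1 : ∑ i, Real.sqrt q1 * sg (v i) * (Real.sqrt q1 * sg (w i)) = q1 * ip v w := by
      unfold ip
      rw [Finset.mul_sum]
      refine Finset.sum_congr rfl fun i _ => ?_
      calc Real.sqrt q1 * sg (v i) * (Real.sqrt q1 * sg (w i)) =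
            (Real.sqrt q1 * Real.sqrt q1) * (sg (v i) * sg (w i)) := by ring
        _ = _ := by rw [Real.mul_self_sqrt hq10]
    have e2 : ∑ τ : Fin N → Fin R, Real.sqrt q2 * sgp v τ * (Real.sqrt q2 * sgp w τ) =
        q2 * ip v w ^ N := by
      rw [ip_pow, Finset.mul_sum]
      refine Finset.sum_congr rfl fun τ _ => ?_
      calc Real.sqrt q2 * sgp v τ * (Real.sqrt q2 * sgp w τ) =
            (Real.sqrt q2 * Real.sqrt q2) * (sgp v τ * sgp w τ) := by ring
        _ = _ := by rw [Real.mul_self_sqrt hq20]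
    rw [e1, e2, hq1, hq2, div_pow]
    field_simp
  have hself : ∀ v, x v ⬝ᵥ x v = p := by
    intro v
    rw [hdot, hQ]
    beta_reduce
    rw [ip_self, div_self hR0.ne', one_pow, hq]
    ring
  have hQm : ∀ v w, Q v w + m = θ * rem n (-(ip v w / R)) b := by
    intro v w
    rw [hQ, hm]
    unfold rem
    beta_reduce
    rw [hN, hn.neg_pow]
    obtain ⟨t, ht⟩ : ∃ t : ℝ, t = ip v w / R := ⟨_, rfl⟩
    rw [← ht]
    have h1 : θ * ((n + 1) * b ^ n) = 1 - θ := by linarith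
    calc (1 - θ) * t + θ * t ^ (n + 1) + ((1 - θ) * b - θ * b ^ (n + 1)) =
          (1 - θ) * (t + b) + θ * (t ^ (n + 1) - b ^ (n + 1)) := by ring
      _ = (θ * ((n + 1) * b ^ n)) * (t + b) + θ * (t ^ (n + 1) - b ^ (n + 1)) := by rw [h1]
      _ = _ := by ring
  have hQm0 : ∀ v w, 0 ≤ Q v w + m := by
    intro v w
    rw [hQm]
    exact mul_nonneg hθ0 (rem_nonneg n hn _ _ hb)
  have h1p : 1 - p = p * m := by linarith
  have hunc : ∀ v w, 1 - 2 * p + x v ⬝ᵥ x w = q * (Q v w + m) := by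
    intro v w
    rw [hdot, hq]
    have : (p - p ^ 2) * m = (1 - p) ^ 2 := by
      calc (p - p ^ 2) * m = (1 - p) * (p * m) := by ring
        _ = (1 - p) ^ 2 := by rw [← h1p]; ring
    linarith
  have hpos : ∀ v w, 0 ≤ x v ⬝ᵥ x w := by
    intro v w
    have h1 := hunc v w
    have h2 := mul_nonneg hq0 (hQm0 v w)
    linarith
  have htri : ∀ v w u, x v ⬝ᵥ x w + x v ⬝ᵥ x u ≤ p + x w ⬝ᵥ x u := by
    intro v w u
    rw [hdot, hdot, hdot]
    have e1 := ip_tri 1 v w u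
    rw [pow_one, pow_one, pow_one, pow_one] at e1
    have e2 := ip_tri N v w u
    have e3 : ip v w / R + ip v u / R ≤ 1 + ip w u / R := by
      rw [← add_div, div_le_iff₀ hR0]
      have : (1 + ip w u / R) * R = R + ip w u := by field_simp
      rw [this]
      exact e1
    have e4 : (ip v w / R) ^ N + (ip v u / R) ^ N ≤ 1 + (ip w u / R) ^ N := by
      rw [div_pow, div_pow, div_pow, ← add_div, div_le_iff₀ (by positivity)]
      have : (1 + ip w u ^ N / (R : ℝ) ^ N) * R ^ N = R ^ N + ip w u ^ N := by field_simp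
      rw [this]
      exact e2
    have e5 : Q v w + Q v u ≤ 1 + Q w u := by
      rw [hQ]
      beta_reduce
      have e6 := mul_le_mul_of_nonneg_left e3 (by linarith : 0 ≤ 1 - θ)
      have e7 := mul_le_mul_of_nonneg_left e4 hθ0
      linarith
    have e6 := mul_le_mul_of_nonneg_left e5 hq0
    have e7 : p = p ^ 2 + q := by rw [hq]; ring
    linarith
  refine ⟨Option (Fin R ⊕ (Fin N → Fin R)), inferInstance, z, x, hzz, hself, hzx,
    pts_tri2 z x p (by linarith) hp1 hzz hself hzx hpos (fun v w => ?_) htri, fun v w => ?_⟩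
  · rw [hunc]
    exact mul_nonneg hq0 (hQm0 v w)
  · rw [← hQm, ← hq, ← hunc, sub_dotProduct, dotProduct_sub, dotProduct_sub, hzz, hzx,
      dotProduct_comm (x v) z, hzx]
    ring

theorem wt_prod (ε : ℝ) (x : Fin R → Bool) (T : Finset (Fin R)) :
    ∑ y, cubeWt ε x y * ∏ i ∈ T, (sg (x i) * sg (y i)) = (1 - 2 * ε) ^ T.card := by
  have h2 : ∀ y : Fin R → Bool, cubeWt ε x y * ∏ i ∈ T, (sg (x i) * sg (y i)) =
      ∏ l, (if x l = y l then 1 - ε else ε) * (if l ∈ T then sg (x l) * sg (y l) else 1) := by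
    intro y
    symm
    rw [Finset.prod_mul_distrib, Finset.prod_ite_mem, Finset.univ_inter]
    rfl
  simp only [h2]
  rw [sum_prod_cube (fun l b => (if x l = b then 1 - ε else ε) *
    (if l ∈ T then sg (x l) * sg b else 1))]
  have h3 : ∀ l : Fin R, ((if x l = true then 1 - ε else ε) *
      (if l ∈ T then sg (x l) * sg true else 1) + (if x l = false then 1 - ε else ε) *
      (if l ∈ T then sg (x l) * sg false else 1)) = if l ∈ T then 1 - 2 * ε else 1 := by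
    intro l
    by_cases hl : l ∈ T
    · simp only [if_pos hl]
      cases x l <;> simp <;> ring
    · simp only [if_neg hl]
      cases x l <;> simp
  simp only [h3]
  rw [Finset.prod_ite_mem, Finset.univ_inter, Finset.prod_const]

theorem ip_sq_mean_eq (ε : ℝ) (x : Fin R → Bool) :
    ∑ y, cubeWt ε x y * ip x y ^ 2 = R * (1 - (1 - 2 * ε) ^ 2) + R ^ 2 * (1 - 2 * ε) ^ 2 := by
  have h1 : ∀ y : Fin R → Bool, cubeWt ε x y * ip x y ^ 2 = ∑ i, ∑ j,
      cubeWt ε x y * ((sg (x i) * sg (y i)) * (sg (x j) * sg (y j))) := by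
    intro y
    unfold ip
    rw [sq, Finset.sum_mul_sum, Finset.mul_sum]
    exact Finset.sum_congr rfl fun i _ => Finset.mul_sum _ _ _
  simp only [h1]
  rw [Finset.sum_comm]
  have h2 : ∀ i : Fin R, ∑ y, ∑ j, cubeWt ε x y * ((sg (x i) * sg (y i)) * (sg (x j) * sg (y j))) =
      (1 - (1 - 2 * ε) ^ 2) + R * (1 - 2 * ε) ^ 2 := by
    intro i
    rw [Finset.sum_comm]
    have h3 : ∀ j : Fin R, ∑ y, cubeWt ε x y * ((sg (x i) * sg (y i)) * (sg (x j) * sg (y j))) =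
        (if j = i then 1 - (1 - 2 * ε) ^ 2 else 0) + (1 - 2 * ε) ^ 2 := by
      intro j
      by_cases hj : j = i
      · subst hj
        rw [if_pos rfl]
        have h4 : ∀ y : Fin R → Bool,
            cubeWt ε x y * ((sg (x j) * sg (y j)) * (sg (x j) * sg (y j))) = cubeWt ε x y := by
          intro y
          have h5 : (sg (x j) * sg (y j)) * (sg (x j) * sg (y j)) = 1 := by
            cases x j <;> cases y j <;> simp
          rw [h5, mul_one]
        simp only [h4]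
        rw [cubeWt_sum]
        ring
      · rw [if_neg hj]
        have h4 := wt_prod ε x {i, j}
        rw [Finset.card_pair (Ne.symm hj)] at h4
        rw [zero_add, ← h4]
        refine Finset.sum_congr rfl fun y _ => ?_
        rw [Finset.prod_pair (Ne.symm hj)]
    simp only [h3]
    rw [Finset.sum_add_distrib, Finset.sum_ite_eq' univ i (fun _ => 1 - (1 - 2 * ε) ^ 2),
      if_pos (mem_univ i), Finset.sum_const, card_univ, Fintype.card_fin, nsmul_eq_mul]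
  simp only [h2]
  rw [Finset.sum_const, card_univ, Fintype.card_fin, nsmul_eq_mul]
  ring

/-- the mean uncovered weight -/
theorem rem_mean (hR : 0 < R) (n : ℕ) (ε : ℝ) (hε0 : 0 ≤ ε) (hε2 : 2 * ε ≤ 1)
    (v : Fin R → Bool) :
    ∑ w, cubeWt (1 - ε) v w * rem n (-(ip v w / R)) (1 - 2 * ε) ≤ (n + 1) ^ 2 / R := by
  have hR0 : (0 : ℝ) < R := by exact_mod_cast hR
  have h1 : ∀ w, cubeWt (1 - ε) v w * rem n (-(ip v w / R)) (1 - 2 * ε) ≤
      (n + 1) ^ 2 * (cubeWt (1 - ε) v w * ip v w ^ 2 / R ^ 2 +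
        2 * (1 - 2 * ε) / R * (cubeWt (1 - ε) v w * ip v w) +
        (1 - 2 * ε) ^ 2 * cubeWt (1 - ε) v w) := by
    intro w
    have h2 := rem_le n (-(ip v w / R)) (1 - 2 * ε) (by
      rw [abs_neg, abs_div, abs_of_pos hR0, div_le_one hR0]
      exact ip_abs v w) (by linarith) (by linarith)
    refine (mul_le_mul_of_nonneg_left h2 (cubeWt_nonneg (by linarith) (by linarith) v w)).trans
      (le_of_eq ?_)
    field_simp
    ring
  refine (Finset.sum_le_sum fun w _ => h1 w).trans ?_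
  rw [← Finset.mul_sum, Finset.sum_add_distrib, Finset.sum_add_distrib, ← Finset.sum_div,
    ← Finset.mul_sum, ← Finset.mul_sum, ip_sq_mean_eq, ip_mean, cubeWt_sum]
  have h3 : ((R : ℝ) * (1 - (1 - 2 * (1 - ε)) ^ 2) + R ^ 2 * (1 - 2 * (1 - ε)) ^ 2) / R ^ 2 +
      2 * (1 - 2 * ε) / R * (R * (1 - 2 * (1 - ε))) + (1 - 2 * ε) ^ 2 * 1 =
      (1 - (1 - 2 * ε) ^ 2) / R := by
    field_simp
    ring
  rw [h3, ← mul_div_assoc]
  refine div_le_div_of_nonneg_right ?_ hR0.le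
  have h4 : (1 - (1 - 2 * ε) ^ 2) ≤ 1 := by nlinarith [sq_nonneg (1 - 2 * ε)]
  have h5 : (0 : ℝ) ≤ (n + 1) ^ 2 := by positivity
  nlinarith

end

end Pool.Agent.W888.VX
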