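import Pool.Agent.W888.VX.Rel
import Pool.Agent.W888.VX.Rnd
import Pool.Agent.W888.VX.Sdp

set_option autoImplicit false
set_option linter.unusedSectionVars false

/-!
Branch-and-cut for vertex cover.
-/

namespace Pool.Agent.W888.VX

open Finset Matrix
open Pool.Agent.W888.UG (lab lab_apply Tree full full_proves SplitProof cover_of_tree tree_of_split)
open Pool.Agent.W888.SX (cubeWt cubeWt_nonneg pts exists_near ip)

/-- The parameters of the vectors. -/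
theorem params (ε : ℝ) (hε : 0 < ε) (hε1 : ε ≤ 1) :
    ∃ (n : ℕ) (ε' θ m p : ℝ), Even (n + 1) ∧ 0 < ε' ∧ ε' ≤ 1 / 4 ∧ 0 ≤ θ ∧ θ ≤ 1 ∧
      θ * (1 + (n + 1) * (1 - 2 * ε') ^ n) = 1 ∧
      m = (1 - θ) * (1 - 2 * ε') - θ * (1 - 2 * ε') ^ (n + 1) ∧ p * (1 + m) = 1 ∧
      1 ≤ 2 * p ∧ p ≤ 1 / 2 + ε / 4 := by
  obtain ⟨k, hk⟩ := exists_nat_ge (5 / ε)
  rw [div_le_iff₀ hε] at hk
  obtain ⟨N, hN⟩ : ∃ N : ℕ, N = 2 * (k + 1) := ⟨_, rfl⟩
  have hN2 : 2 ≤ N := by omega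
  obtain ⟨n, hn⟩ : ∃ n : ℕ, n + 1 = N := ⟨N - 1, by omega⟩
  have hNr : (2 : ℝ) ≤ N := by exact_mod_cast hN2
  have hN0 : (0 : ℝ) < N := by linarith
  have hnN : (n : ℝ) + 1 = N := by exact_mod_cast hn
  have hNε : 10 ≤ ε * N := by
    rw [hN]
    push_cast
    nlinarith
  obtain ⟨ε', hε'⟩ : ∃ ε' : ℝ, ε' = 1 / (4 * N) := ⟨_, rfl⟩
  have hε'0 : 0 < ε' := by rw [hε']; positivity
  have hε'N : ε' * N = 1 / 4 := by
    rw [hε']
    field_simp
  have hε'4 : ε' ≤ 1 / 8 := by nlinarith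
  obtain ⟨b, hb⟩ : ∃ b : ℝ, b = 1 - 2 * ε' := ⟨_, rfl⟩
  have hb0 : 0 ≤ b := by rw [hb]; linarith
  have hb1 : b ≤ 1 := by rw [hb]; linarith
  have hbn : 1 / 2 ≤ b ^ n := by
    have h1 := one_add_mul_le_pow (a := -(2 * ε')) (by linarith) n
    have h2 : (1 + -(2 * ε')) = b := by rw [hb]; ring
    rw [h2] at h1
    refine le_trans ?_ h1
    have h3 : (n : ℝ) * ε' ≤ 1 / 4 := by
      have : (n : ℝ) * ε' + ε' = 1 / 4 := by
        rw [← hε'N, ← hnN]
        ring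
      linarith
    linarith
  have hden : 0 < 1 + (N : ℝ) * b ^ n := by positivity
  obtain ⟨θ, hθ⟩ : ∃ θ : ℝ, θ = 1 / (1 + N * b ^ n) := ⟨_, rfl⟩
  have hθ0 : 0 ≤ θ := by rw [hθ]; positivity
  have hθ1 : θ ≤ 1 := by
    rw [hθ, div_le_one hden]
    have : 0 ≤ (N : ℝ) * b ^ n := by positivity
    linarith
  have hθe : θ * (1 + N * b ^ n) = 1 := by
    rw [hθ]
    field_simp
  have hθN : θ * N ≤ 2 := by
    have h1 : θ * (N * (1 / 2)) ≤ θ * (1 + N * b ^ n) := by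
      refine mul_le_mul_of_nonneg_left ?_ hθ0
      have := mul_le_mul_of_nonneg_left hbn hN0.le
      linarith
    linarith
  obtain ⟨m, hm⟩ : ∃ m : ℝ, m = (1 - θ) * b - θ * b ^ (n + 1) := ⟨_, rfl⟩
  have hbN0 : 0 ≤ b ^ (n + 1) := by positivity
  have hbN1 : b ^ (n + 1) ≤ 1 := pow_le_one₀ hb0 hb1
  have hm1 : m ≤ 1 := by
    rw [hm]
    have h1 : 0 ≤ θ * b ^ (n + 1) := by positivity
    have h2 : 0 ≤ θ * b := by positivity
    linarith
  have hmlow : 1 - ε / 2 ≤ m := by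
    have h1 : θ * b ≤ θ := mul_le_of_le_one_right hθ0 hb1
    have h2 : θ * b ^ (n + 1) ≤ θ := mul_le_of_le_one_right hθ0 hbN1
    have h3 : (2 * ε' + 2 * θ) * N ≤ (ε / 2) * N := by nlinarith
    have h4 : 2 * ε' + 2 * θ ≤ ε / 2 := le_of_mul_le_mul_right h3 hN0
    rw [hm, hb] at *
    linarith
  have hm2 : 0 < 1 + m := by linarith
  have hp : 1 / (1 + m) * (1 + m) = 1 := by field_simp
  refine ⟨n, ε', θ, m, 1 / (1 + m), ?_, hε'0, by linarith, hθ0, hθ1, ?_, ?_, hp, ?_, ?_⟩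
  · rw [hn, hN]
    exact even_two_mul _
  · rw [hnN, ← hb]
    exact hθe
  · rw [← hb]
    exact hm
  · rw [mul_one_div, le_div_iff₀ hm2]
    linarith
  · rw [div_le_iff₀ hm2]
    nlinarith

/-- The main theorem. -/
theorem main_all (ε L : ℝ) (hε : 0 < ε) (hε4 : ε < 1 / 4) (hL : 1 ≤ L) :
    ∃ (M : ℕ) (γ : ℝ), 0 < γ ∧ ∃ R₀ : ℕ, ∀ R : ℕ, R₀ ≤ R →
      ∃ E : Finset ((Fin R → Bool) × (Fin R → Bool)), E.card ≤ M * 2 ^ R ∧
      (∀ e ∈ E, e.1 ≠ e.2) ∧
      (∀ C : Finset (Fin R → Bool), (∀ e ∈ E, e.1 ∈ C ∨ e.2 ∈ C) →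
        (1 - ε) * 2 ^ R ≤ C.card) ∧
      (∀ F : List (Set ((Fin R → Bool) → Bool → ℝ)), (∀ C ∈ F, Convex ℝ C) →
        (∀ C ∈ F, ∀ μ ∈ C, μ ∉ Relax E L ((1 / 2 + ε) * 2 ^ R)) →
        (∀ o : (Fin R → Bool) → Bool, ∃ C ∈ F, lab o ∈ C) →
        (2 : ℝ) ^ (γ * 2 ^ R) ≤ F.length) ∧
      (∀ T : Tree (Fin R → Bool) Bool, T.Proves (Relax E L ((1 / 2 + ε) * 2 ^ R)) Set.univ →
        (2 : ℝ) ^ (γ * 2 ^ R) ≤ T.leaves) ∧
      (∀ l, SplitProof (Relax E L ((1 / 2 + ε) * 2 ^ R)) l Set.univ →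
        (2 : ℝ) ^ (γ * 2 ^ R) ≤ 2 * l.length + 1) ∧
      ∃ T : Tree (Fin R → Bool) Bool, T.leaves = 2 ^ 2 ^ R ∧
        T.Proves (Relax E L ((1 / 2 + ε) * 2 ^ R)) Set.univ := by
  have hL0 : 0 < L := by linarith
  obtain ⟨n0, ε', θ, m, p, hn0, hε'0, hε'4, hθ0, hθ1, hθ, hm, hp, hp2, hpε⟩ :=
    params ε hε (by linarith)
  have hp34 : p ≤ 3 / 4 := by linarith
  have hp0 : 0 < p := by linarith
  obtain ⟨θ', hθ'⟩ : ∃ θ' : ℝ, θ' = ε / (16 * L) := ⟨_, rfl⟩
  have hθ'0 : 0 < θ' := by rw [hθ']; positivity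
  obtain ⟨M, ξ0, hξ0, hgraph⟩ := exists_cube ε ε' θ' hε hε'0 hε'4 hθ'0
  obtain ⟨R0, hR0, hgraph⟩ := hgraph ((n0 + 1) ^ 2) (by positivity)
  obtain ⟨ξ, hξ⟩ : ∃ ξ : ℝ, ξ = min ξ0 (ε / 16) := ⟨_, rfl⟩
  have hξpos : 0 < ξ := by
    rw [hξ]
    exact lt_min hξ0 (by positivity)
  have hξ1 : ξ ≤ ξ0 := by rw [hξ]; exact min_le_left _ _
  have hξ2 : ξ ≤ ε / 16 := by rw [hξ]; exact min_le_right _ _
  obtain ⟨τ, hτ⟩ : ∃ τ : ℝ, τ = ε / (16 * (1 + L * M)) := ⟨_, rfl⟩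
  have hLM : 0 ≤ L * M := by positivity
  have hτ0 : 0 < τ := by rw [hτ]; positivity
  have hτLM : τ * (1 + L * M) = ε / 16 := by
    rw [hτ]
    field_simp
  have hτ1 : τ ≤ 1 := by nlinarith
  refine ⟨M, ξ * (τ ^ 2 * (1 / 4) / 4), by positivity, R0, fun R hR => ?_⟩
  have hRpos : 0 < R := by omega
  obtain ⟨D, iD, z, x, h1, h2, h2', h3, h4⟩ := cube_vec hRpos n0 hn0 (1 - 2 * ε') θ m p
    (by linarith) hθ0 hθ1 hθ hm hp hp2 (by linarith)
  have hpp : 0 ≤ p - p ^ 2 := by nlinarith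
  have hpp1 : (p - p ^ 2) * θ ≤ 1 := by
    have : p - p ^ 2 ≤ 1 := by nlinarith [sq_nonneg p]
    exact mul_le_one₀ this hθ0 hθ1
  have hrem0 : ∀ v w : Fin R → Bool, 0 ≤ rem n0 (-(ip v w / R)) (1 - 2 * ε') := fun v w =>
    rem_nonneg n0 hn0 _ _ (by linarith)
  have hwt0 : ∀ v w : Fin R → Bool, 0 ≤ cubeWt (1 - ε') v w :=
    cubeWt_nonneg (by linarith) (by linarith)
  obtain ⟨E, hE1, hE2, hE3, hE4, hE5⟩ := hgraph R hR (fun e => (z - x e.1) ⬝ᵥ (z - x e.2))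
    (fun e => by
      rw [h4]
      exact mul_nonneg hpp (mul_nonneg hθ0 (hrem0 _ _)))
    (fun v => by
      refine le_trans ?_ (rem_mean hRpos n0 ε' hε'0.le (by linarith) v)
      refine Finset.sum_le_sum fun w _ => ?_
      rw [h4, ← mul_assoc (p - p ^ 2)]
      refine mul_le_mul_of_nonneg_left ?_ (hwt0 v w)
      exact mul_le_of_le_one_left (hrem0 v w) hpp1)
  obtain ⟨n, hn⟩ : ∃ n : ℝ, n = 2 ^ R := ⟨_, rfl⟩
  have hnpos : 0 < n := by rw [hn]; positivity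
  have hcardV : (Fintype.card (Fin R → Bool) : ℝ) = n := by
    rw [Fintype.card_fun, Fintype.card_bool, Fintype.card_fin, hn]
    push_cast
    rfl
  have hEn : (E.card : ℝ) ≤ M * n := by
    rw [hn]
    exact_mod_cast hE1
  rw [← hn] at hE5
  have hvc : ∀ C : Finset (Fin R → Bool), (∀ e ∈ E, e.1 ∈ C ∨ e.2 ∈ C) →
      (1 - ε) * 2 ^ R ≤ C.card := by
    intro C hC
    by_contra hcon
    push Not at hcon
    obtain ⟨e, he, he1, he2⟩ := hE3 Cᶜ (by
      rw [Finset.card_compl, Nat.cast_sub (Finset.card_le_univ C), hcardV, hn]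
      linarith)
    rw [mem_compl] at he1 he2
    rcases hC e he with h | h
    · exact he1 h
    · exact he2 h
  have hcov : ∀ F : List (Set ((Fin R → Bool) → Bool → ℝ)), (∀ C ∈ F, Convex ℝ C) →
        (∀ C ∈ F, ∀ μ ∈ C, μ ∉ Relax E L ((1 / 2 + ε) * 2 ^ R)) →
        (∀ o : (Fin R → Bool) → Bool, ∃ C ∈ F, lab o ∈ C) →
        (2 : ℝ) ^ ((ξ * (τ ^ 2 * (1 / 4) / 4)) * 2 ^ R) ≤ F.length := by
    intro F hconv hmiss hcover
    by_contra hcon
    push Not at hcon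
    rw [← hn] at hcon hmiss
    obtain ⟨C, hC, μ, hμC, Bd, hBd, hμ0, hμ1, hnear⟩ := exists_near
      (fun (_ : Fin R → Bool) (a : Bool) => if a then p else 1 - p)
      (fun _ a => by cases a <;> simp <;> linarith)
      (fun _ => by rw [Fintype.sum_bool]; simp) F hconv hcover τ (1 / 4) hτ0 hτ1 (by norm_num)
      (fun _ a => by cases a <;> simp <;> linarith)
    have hFpos : (0 : ℝ) < F.length := by
      exact_mod_cast List.length_pos_of_mem hC
    have hBdn : (Bd.card : ℝ) ≤ ξ * n := by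
      have h1 := Real.log_le_log hFpos hcon.le
      rw [Real.log_rpow (by norm_num)] at h1
      have h2 : ξ * (τ ^ 2 * (1 / 4) / 4) * n * Real.log 2 ≤
          ξ * (τ ^ 2 * (1 / 4) / 4) * n * 1 := by
        refine mul_le_mul_of_nonneg_left ?_ (by positivity)
        have := Real.log_two_lt_d9
        linarith
      have h3 : (Bd.card : ℝ) * (τ ^ 2 * (1 / 4) / 4) ≤ (ξ * n) * (τ ^ 2 * (1 / 4) / 4) := by
        calc (Bd.card : ℝ) * (τ ^ 2 * (1 / 4) / 4) ≤ Real.log F.length := hBd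
          _ ≤ _ := h1
          _ ≤ _ := h2
          _ = _ := by ring
      exact le_of_mul_le_mul_right h3 (by positivity)
    have hμsum : ∀ v, μ v true + μ v false = 1 := by
      intro v
      have := hμ1 v
      rwa [Fintype.sum_bool] at this
    have hμle : ∀ v, μ v true ≤ 1 := by
      intro v
      have h1 := hμsum v
      have h2 := hμ0 v false
      linarith
    have hlow : ∀ v ∉ Bd, (1 - τ) * p ≤ μ v true := by
      intro v hv
      have := (hnear v hv true).1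
      rwa [if_pos rfl] at this
    have hup : ∀ v ∉ Bd, (1 - τ) * (1 - p) ≤ 1 - μ v true := by
      intro v hv
      have := (hnear v hv false).1
      rw [if_neg (by decide)] at this
      have h1 := hμsum v
      linarith
    have htouch : ((E.filter fun a => a.1 ∈ Bd ∨ a.2 ∈ Bd).card : ℝ) ≤ θ' * n := by
      rw [hn]
      refine hE4 Bd ?_
      rw [← hn]
      exact hBdn.trans (mul_le_mul_of_nonneg_right hξ1 hnpos.le)
    have hsol := sol_near E L hL0.le p (θ' * n) z x h1 h2 h2' hp0.le h3 (by positivity) hE5 Bd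
      (fun v => μ v true) (fun v => hμ0 v true) hμle τ hτ0 hτ1 hlow hup
    obtain ⟨D', iD', z', x', g1, g2, g3, g4, g5⟩ := hsol
    refine hmiss C hC μ hμC ⟨D', iD', z', x', g1, g2, g3, fun v => ⟨g4 v, ?_⟩, ?_⟩
    · rw [← g4 v]
      linarith [hμsum v]
    · refine g5.trans ?_
      rw [hcardV]
      have e1 : p * n ≤ (1 / 2 + ε / 4) * n := mul_le_mul_of_nonneg_right hpε hnpos.le
      have e2 : (Bd.card : ℝ) ≤ ε / 16 * n :=
        hBdn.trans (mul_le_mul_of_nonneg_right hξ2 hnpos.le)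
      have e3 : L * (θ' * n + ((E.filter fun a => a.1 ∈ Bd ∨ a.2 ∈ Bd).card : ℝ)) ≤
          ε / 8 * n := by
        have h7 : L * (θ' * n + ((E.filter fun a => a.1 ∈ Bd ∨ a.2 ∈ Bd).card : ℝ)) ≤
            L * (θ' * n + θ' * n) := mul_le_mul_of_nonneg_left (by linarith) hL0.le
        refine h7.trans (le_of_eq ?_)
        rw [hθ']
        field_simp
        ring
      have e4 : τ * (n + L * E.card) ≤ ε / 16 * n := by
        have h7 : L * (E.card : ℝ) ≤ L * (M * n) := mul_le_mul_of_nonneg_left hEn hL0.le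
        have h8 : τ * (n + L * E.card) ≤ τ * (n + L * (M * n)) :=
          mul_le_mul_of_nonneg_left (by linarith) hτ0.le
        refine h8.trans (le_of_eq ?_)
        calc τ * (n + L * (M * n)) = (τ * (1 + L * M)) * n := by ring
          _ = _ := by rw [hτLM]
      have e5 : 0 < ε * n := by positivity
      linarith
  have htree : ∀ T : Tree (Fin R → Bool) Bool,
      T.Proves (Relax E L ((1 / 2 + ε) * 2 ^ R)) Set.univ →
      (2 : ℝ) ^ ((ξ * (τ ^ 2 * (1 / 4) / 4)) * 2 ^ R) ≤ T.leaves := by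
    intro T hT
    obtain ⟨Q, g1, g2, g3, g4⟩ := cover_of_tree _ T Set.univ convex_univ hT
    rw [← g1]
    exact hcov Q g2 g3 fun x => g4 x (Set.mem_univ _)
  refine ⟨E, hE1, hE2, hvc, hcov, htree, fun l hl => ?_, ?_⟩
  · obtain ⟨T, hT, hP⟩ := tree_of_split _ l _ hl
    have := htree T hP
    rw [hT] at this
    exact_mod_cast this
  · refine ⟨full ((univ : Finset (Fin R → Bool)).toList.map fun v => (v, true)), ?_,
      full_ok _ _ _ hL fun C hC => ?_⟩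
    · have hleaves : ∀ l : List ((Fin R → Bool) × Bool), (full l).leaves = 2 ^ l.length := by
        intro l
        induction l with
        | nil => rfl
        | cons p l ih =>
          show (full l).leaves + (full l).leaves = 2 ^ (l.length + 1)
          rw [ih, pow_succ]
          ring
      rw [hleaves, List.length_map, Finset.length_toList, card_univ, Fintype.card_fun,
        Fintype.card_bool, Fintype.card_fin]
    · have h7 := hvc C hC
      refine lt_of_lt_of_le ?_ h7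
      rw [← hn]
      exact mul_lt_mul_of_pos_right (by linarith) hnpos

end Pool.Agent.W888.VX
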