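import Pool.Agent.W888.SX.Cube

set_option autoImplicit false
set_option linter.unusedSectionVars false

/-!
The semidefinite relaxation of vertex cover, and mixtures of its solutions.
-/

namespace Pool.Agent.W888.VX

open Finset Matrix
open Pool.Agent.W888.UG (lab lab_apply Tree dot_sigma full full_proves)
open Pool.Agent.W888.SX (pts ind ind_nonneg ind_le ind_sq pw pw_nonneg pw_one pw_sum)

/-- The fractional points which the semidefinite relaxation does not exclude when it is used to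
prove that the graph with the edges `E` has no vertex cover with at most `B` vertices. There are a
unit vector `z` and vectors `x v` (`z` for the vertices in the cover, `0` for the others) with the
squared norms `μ v true`, which satisfy all triangle inequalities of the squared distances between
the points `0`, `z`, `x v`, and the number of vertices plus `L` times the number of uncovered edges
is at most `B`. -/
def Relax {V : Type} [Fintype V] (E : Finset (V × V)) (L B : ℝ) : Set (V → Bool → ℝ) :=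
  {μ | ∃ (D : Type) (_ : Fintype D) (z : D → ℝ) (x : V → D → ℝ),
    z ⬝ᵥ z = 1 ∧ (∀ v, x v ⬝ᵥ x v = z ⬝ᵥ x v) ∧
    (∀ i j k, 0 ≤ (pts z x i - pts z x j) ⬝ᵥ (pts z x i - pts z x k)) ∧
    (∀ v, μ v true = x v ⬝ᵥ x v ∧ μ v false = 1 - x v ⬝ᵥ x v) ∧
    ∑ v, x v ⬝ᵥ x v + L * ∑ e ∈ E, (z - x e.1) ⬝ᵥ (z - x e.2) ≤ B}

section

variable {V : Type} [Fintype V]

/-- solutions with marginals `μ` and value at most `β` -/
def Sol (E : Finset (V × V)) (L : ℝ) (μ : V → ℝ) (β : ℝ) : Prop :=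
  ∃ (D : Type) (_ : Fintype D) (z : D → ℝ) (x : V → D → ℝ),
    z ⬝ᵥ z = 1 ∧ (∀ v, x v ⬝ᵥ x v = z ⬝ᵥ x v) ∧
    (∀ i j k, 0 ≤ (pts z x i - pts z x j) ⬝ᵥ (pts z x i - pts z x k)) ∧
    (∀ v, μ v = x v ⬝ᵥ x v) ∧
    ∑ v, x v ⬝ᵥ x v + L * ∑ e ∈ E, (z - x e.1) ⬝ᵥ (z - x e.2) ≤ β

theorem sol_mix (E : Finset (V × V)) (L : ℝ) {J : Type} [Fintype J]
    (p : J → ℝ) (hp : ∀ j, 0 ≤ p j) (hp1 : ∑ j, p j = 1) (μ : J → V → ℝ) (β : J → ℝ)
    (h : ∀ j, Sol E L (μ j) (β j)) :
    Sol E L (fun v => ∑ j, p j * μ j v) (∑ j, p j * β j) := by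
  choose D iD z x h1 h2 h3 h4 h6 using h
  have hd : ∀ v w, (fun d : Σ j, D j => Real.sqrt (p d.1) * x d.1 v d.2) ⬝ᵥ
      (fun d : Σ j, D j => Real.sqrt (p d.1) * x d.1 w d.2) =
      ∑ j, p j * (x j v ⬝ᵥ x j w) := fun v w =>
    dot_sigma p hp (fun j => x j v) (fun j => x j w)
  refine ⟨Σ j, D j, inferInstance, fun d => Real.sqrt (p d.1) * z d.1 d.2,
    fun v d => Real.sqrt (p d.1) * x d.1 v d.2, ?_, ?_, ?_, ?_, ?_⟩
  · rw [dot_sigma p hp]
    simp only [h1, mul_one, hp1]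
  · intro v
    beta_reduce
    rw [hd, dot_sigma p hp (fun j => z j) (fun j => x j v)]
    exact Finset.sum_congr rfl fun j _ => by rw [h2 j v]
  · have hv : ∀ i, pts (fun d : Σ j, D j => Real.sqrt (p d.1) * z d.1 d.2)
        (fun (v : V) (d : Σ j, D j) => Real.sqrt (p d.1) * x d.1 v d.2) i =
        fun d : Σ j, D j => Real.sqrt (p d.1) * pts (z d.1) (x d.1) i d.2 := by
      intro i
      rcases i with - | - | i
      · funext d
        simp [pts]
      · rfl
      · rfl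
    intro i j k
    rw [hv, hv, hv]
    have hw : ∀ i j, ((fun d : Σ j, D j => Real.sqrt (p d.1) * pts (z d.1) (x d.1) i d.2) -
        fun d : Σ j, D j => Real.sqrt (p d.1) * pts (z d.1) (x d.1) j d.2) =
        fun d : Σ j, D j => Real.sqrt (p d.1) *
          (pts (z d.1) (x d.1) i - pts (z d.1) (x d.1) j) d.2 := by
      intro i j
      funext d
      simp only [Pi.sub_apply]
      ring
    rw [hw, hw, dot_sigma p hp (fun l => pts (z l) (x l) i - pts (z l) (x l) j)
      (fun l => pts (z l) (x l) i - pts (z l) (x l) k)]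
    exact Finset.sum_nonneg fun l _ => mul_nonneg (hp l) (h3 l i j k)
  · intro v
    beta_reduce
    rw [hd]
    exact Finset.sum_congr rfl fun j _ => by rw [h4 j v]
  · have hw : ∀ w, ((fun d : Σ j, D j => Real.sqrt (p d.1) * z d.1 d.2) -
          fun d : Σ j, D j => Real.sqrt (p d.1) * x d.1 w d.2) =
        fun d : Σ j, D j => Real.sqrt (p d.1) * (z d.1 - x d.1 w) d.2 := by
      intro w
      funext d
      simp only [Pi.sub_apply]
      ring
    have h7 : ∀ v w, ((fun d : Σ j, D j => Real.sqrt (p d.1) * z d.1 d.2) -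
          fun d : Σ j, D j => Real.sqrt (p d.1) * x d.1 v d.2) ⬝ᵥ
        ((fun d : Σ j, D j => Real.sqrt (p d.1) * z d.1 d.2) -
          fun d : Σ j, D j => Real.sqrt (p d.1) * x d.1 w d.2) =
        ∑ j, p j * ((z j - x j v) ⬝ᵥ (z j - x j w)) := by
      intro v w
      rw [hw, hw, dot_sigma p hp (fun j => z j - x j v) (fun j => z j - x j w)]
    beta_reduce
    simp only [h7, hd]
    have h8 : ∑ v, ∑ j, p j * (x j v ⬝ᵥ x j v) +
        L * ∑ e ∈ E, ∑ j, p j * ((z j - x j e.1) ⬝ᵥ (z j - x j e.2)) =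
        ∑ j, p j * (∑ v, x j v ⬝ᵥ x j v + L * ∑ e ∈ E, (z j - x j e.1) ⬝ᵥ (z j - x j e.2)) := by
      rw [Finset.sum_comm, Finset.sum_comm (s := E), Finset.mul_sum, ← Finset.sum_add_distrib]
      refine Finset.sum_congr rfl fun j _ => ?_
      rw [← Finset.mul_sum, ← Finset.mul_sum]
      ring
    rw [h8]
    exact Finset.sum_le_sum fun j _ => mul_le_mul_of_nonneg_left (h6 j) (hp j)

theorem sol_int (E : Finset (V × V)) (L : ℝ) (hL : 0 ≤ L) (o : V → Bool) :
    Sol E L (ind o) (Fintype.card V + L * E.card) := by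
  have hd : ∀ c d : ℝ, (fun _ : Unit => c) ⬝ᵥ (fun _ : Unit => d) = c * d := by
    intro c d
    simp [dotProduct]
  have hsub : ∀ a b : ℝ, ((fun _ : Unit => a) - fun _ : Unit => b) = fun _ => a - b := fun _ _ => rfl
  refine ⟨Unit, inferInstance, fun _ => 1, fun v _ => ind o v, ?_, ?_, ?_, ?_, ?_⟩
  · rw [hd, one_mul]
  · intro v
    rw [hd, hd, one_mul, ind_sq]
  · have hv : ∀ i, ∃ c : ℝ, (c = 0 ∨ c = 1) ∧
        pts (fun _ : Unit => (1 : ℝ)) (fun (v : V) (_ : Unit) => ind o v) i = fun _ => c := by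
      intro i
      rcases i with - | - | i
      · exact ⟨0, Or.inl rfl, rfl⟩
      · exact ⟨1, Or.inr rfl, rfl⟩
      · refine ⟨ind o i, ?_, rfl⟩
        unfold ind
        split_ifs <;> simp
    intro i j k
    obtain ⟨a, ha, hi⟩ := hv i
    obtain ⟨b, hb, hj⟩ := hv j
    obtain ⟨c, hc, hk⟩ := hv k
    rw [hi, hj, hk, hsub, hsub, hd]
    rcases ha with rfl | rfl <;> rcases hb with rfl | rfl <;> rcases hc with rfl | rfl <;> norm_num
  · intro v
    rw [hd, ind_sq]
  · simp only [hsub, hd]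
    have h1 : ∑ v, ind o v * ind o v ≤ Fintype.card V := by
      simp only [ind_sq]
      refine (Finset.sum_le_sum fun v _ => ind_le o v).trans (le_of_eq ?_)
      rw [Finset.sum_const, card_univ, nsmul_eq_mul, mul_one]
    have h2 : ∑ e ∈ E, (1 - ind o e.1) * (1 - ind o e.2) ≤ E.card := by
      have h3 : ∀ e ∈ E, (1 - ind o e.1) * (1 - ind o e.2) ≤ 1 := by
        intro e _
        have a1 := ind_nonneg o e.1
        have a2 := ind_nonneg o e.2
        have a3 := ind_le o e.1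
        have a4 := ind_le o e.2
        exact mul_le_one₀ (by linarith) (by linarith) (by linarith)
      refine (Finset.sum_le_sum h3).trans (le_of_eq ?_)
      rw [Finset.sum_const, nsmul_eq_mul, mul_one]
    have h3 := mul_le_mul_of_nonneg_left h2 hL
    linarith

variable [DecidableEq V]

/-- fixing the vertices in `Bd` -/
theorem sol_fix (E : Finset (V × V)) (L : ℝ) (hL : 0 ≤ L) (p U : ℝ)
    {D : Type} [iD : Fintype D] (z : D → ℝ) (x : V → D → ℝ) (h1 : z ⬝ᵥ z = 1)
    (h2 : ∀ v, x v ⬝ᵥ x v = p) (h2' : ∀ v, z ⬝ᵥ x v = p) (hp0 : 0 ≤ p)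
    (h3 : ∀ i j k, 0 ≤ (pts z x i - pts z x j) ⬝ᵥ (pts z x i - pts z x k))
    (hU : ∑ e ∈ E, (z - x e.1) ⬝ᵥ (z - x e.2) ≤ U) (Bd : Finset V) (o : V → Bool) :
    Sol E L (fun v => if v ∈ Bd then ind o v else p)
      (p * Fintype.card V + Bd.card +
        L * (U + (E.filter fun e => e.1 ∈ Bd ∨ e.2 ∈ Bd).card)) := by
  obtain ⟨y, hy⟩ : ∃ y : V → D → ℝ, y = fun v => if v ∈ Bd then ind o v • z else x v := ⟨_, rfl⟩
  have hyin : ∀ v ∈ Bd, y v = ind o v • z := fun v hv => by rw [hy]; exact if_pos hv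
  have hyout : ∀ v ∉ Bd, y v = x v := fun v hv => by rw [hy]; exact if_neg hv
  have hypts : ∀ i, ∃ j, pts z y i = pts z x j := by
    intro i
    rcases i with - | - | i
    · exact ⟨none, rfl⟩
    · exact ⟨some none, rfl⟩
    · by_cases hi : i ∈ Bd
      · by_cases ho : o i = true
        · refine ⟨some none, ?_⟩
          show y i = z
          rw [hyin i hi]
          unfold ind
          rw [if_pos ho, one_smul]
        · refine ⟨none, ?_⟩
          show y i = 0
          rw [hyin i hi]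
          unfold ind
          rw [if_neg ho, zero_smul]
      · exact ⟨some (some i), hyout i hi⟩
  have htri : ∀ i j k, 0 ≤ (pts z y i - pts z y j) ⬝ᵥ (pts z y i - pts z y k) := by
    intro i j k
    obtain ⟨i', hi⟩ := hypts i
    obtain ⟨j', hj⟩ := hypts j
    obtain ⟨k', hk⟩ := hypts k
    rw [hi, hj, hk]
    exact h3 i' j' k'
  have hself : ∀ v, y v ⬝ᵥ y v = if v ∈ Bd then ind o v else p := by
    intro v
    by_cases hv : v ∈ Bd
    · rw [if_pos hv, hyin v hv, smul_dotProduct, dotProduct_smul, h1, smul_eq_mul, smul_eq_mul,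
        mul_one, ind_sq]
    · rw [if_neg hv, hyout v hv]
      exact h2 v
  have hzy : ∀ v, z ⬝ᵥ y v = if v ∈ Bd then ind o v else p := by
    intro v
    by_cases hv : v ∈ Bd
    · rw [if_pos hv, hyin v hv, dotProduct_smul, h1, smul_eq_mul, mul_one]
    · rw [if_neg hv, hyout v hv]
      exact h2' v
  refine ⟨D, iD, z, y, h1, fun v => by rw [hself, hzy], htri, fun v => (hself v).symm, ?_⟩
  have e1 : ∑ v, y v ⬝ᵥ y v ≤ p * Fintype.card V + Bd.card := by
    have h7 : ∀ v, y v ⬝ᵥ y v ≤ p + (if v ∈ Bd then 1 else 0) := by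
      intro v
      rw [hself]
      split_ifs
      · linarith [ind_le o v]
      · linarith
    refine (Finset.sum_le_sum fun v _ => h7 v).trans (le_of_eq ?_)
    rw [Finset.sum_add_distrib, Finset.sum_ite_mem, Finset.univ_inter, Finset.sum_const,
      Finset.sum_const, card_univ, nsmul_eq_mul, nsmul_eq_mul, mul_one, mul_comm]
  have hx0 : ∀ v w, 0 ≤ (z - x v) ⬝ᵥ (z - x w) := fun v w =>
    h3 (some none) (some (some v)) (some (some w))
  have hy1 : ∀ v w, (z - y v) ⬝ᵥ (z - y w) ≤ 1 := by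
    intro v w
    have h7 := htri (some (some v)) none (some (some w))
    have h8 : (pts z y (some (some v)) - pts z y none) = y v := by
      show y v - 0 = y v
      rw [sub_zero]
    have h9 : (pts z y (some (some v)) - pts z y (some (some w))) = y v - y w := rfl
    rw [h8, h9, dotProduct_sub] at h7
    rw [sub_dotProduct, dotProduct_sub, dotProduct_sub, h1, dotProduct_comm (y v) z, hzy, hzy]
    rw [hself] at h7
    have h10 : (0 : ℝ) ≤ if w ∈ Bd then ind o w else p := by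
      split_ifs
      · exact ind_nonneg o w
      · exact hp0
    linarith
  have e2 : ∑ e ∈ E, (z - y e.1) ⬝ᵥ (z - y e.2) ≤
      U + (E.filter fun e => e.1 ∈ Bd ∨ e.2 ∈ Bd).card := by
    have h7 : ∀ e ∈ E, (z - y e.1) ⬝ᵥ (z - y e.2) ≤ (z - x e.1) ⬝ᵥ (z - x e.2) +
        (if e.1 ∈ Bd ∨ e.2 ∈ Bd then 1 else 0) := by
      intro e _
      by_cases he : e.1 ∈ Bd ∨ e.2 ∈ Bd
      · rw [if_pos he]
        have := hx0 e.1 e.2
        have := hy1 e.1 e.2
        linarith
      · rw [if_neg he, add_zero]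
        rw [not_or] at he
        rw [hyout _ he.1, hyout _ he.2]
    refine (Finset.sum_le_sum h7).trans ?_
    rw [Finset.sum_add_distrib, Finset.sum_boole]
    linarith
  have e3 := mul_le_mul_of_nonneg_left e2 hL
  linarith

/-- Marginals close to `p` outside `Bd`. -/
theorem sol_near (E : Finset (V × V)) (L : ℝ) (hL : 0 ≤ L) (p U : ℝ)
    {D : Type} [iD : Fintype D] (z : D → ℝ) (x : V → D → ℝ) (h1 : z ⬝ᵥ z = 1)
    (h2 : ∀ v, x v ⬝ᵥ x v = p) (h2' : ∀ v, z ⬝ᵥ x v = p) (hp0 : 0 ≤ p)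
    (h3 : ∀ i j k, 0 ≤ (pts z x i - pts z x j) ⬝ᵥ (pts z x i - pts z x k))
    (hU0 : 0 ≤ U) (hU : ∑ e ∈ E, (z - x e.1) ⬝ᵥ (z - x e.2) ≤ U) (Bd : Finset V)
    (μ : V → ℝ) (hμ0 : ∀ v, 0 ≤ μ v) (hμ1 : ∀ v, μ v ≤ 1) (τ : ℝ) (hτ : 0 < τ) (hτ1 : τ ≤ 1)
    (hlow : ∀ v ∉ Bd, (1 - τ) * p ≤ μ v) (hup : ∀ v ∉ Bd, (1 - τ) * (1 - p) ≤ 1 - μ v) :
    Sol E L μ ((p * Fintype.card V + Bd.card +
        L * (U + (E.filter fun e => e.1 ∈ Bd ∨ e.2 ∈ Bd).card)) +
        τ * (Fintype.card V + L * E.card)) := by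
  obtain ⟨t, ht⟩ : ∃ t : V → ℝ, t = fun v => if v ∈ Bd then μ v else (μ v - (1 - τ) * p) / τ :=
    ⟨_, rfl⟩
  have ht0 : ∀ v, 0 ≤ t v := by
    intro v
    rw [ht]
    beta_reduce
    split_ifs with hv
    · exact hμ0 v
    · exact div_nonneg (by linarith [hlow v hv]) hτ.le
  have ht1 : ∀ v, t v ≤ 1 := by
    intro v
    rw [ht]
    beta_reduce
    split_ifs with hv
    · exact hμ1 v
    · rw [div_le_one hτ]
      linarith [hup v hv]
  obtain ⟨B1, hB1⟩ : ∃ B1 : ℝ, B1 = p * Fintype.card V + Bd.card +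
        L * (U + (E.filter fun e => e.1 ∈ Bd ∨ e.2 ∈ Bd).card) := ⟨_, rfl⟩
  obtain ⟨B2, hB2⟩ : ∃ B2 : ℝ, B2 = Fintype.card V + L * E.card := ⟨_, rfl⟩
  have hB10 : 0 ≤ B1 := by
    rw [hB1]
    positivity
  rw [← hB1, ← hB2]
  have hmix := sol_mix E L (J := (V → Bool) × Bool)
    (fun j => pw t j.1 * (if j.2 then τ else 1 - τ))
    (fun j => mul_nonneg (pw_nonneg ht0 ht1 j.1) (by split_ifs <;> linarith))
    (by
      rw [Fintype.sum_prod_type]
      have h1 : ∀ o : V → Bool, ∑ b : Bool, pw t o * (if b then τ else 1 - τ) = pw t o := by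
        intro o
        rw [Fintype.sum_bool, if_pos rfl, if_neg (by decide)]
        ring
      simp only [h1]
      exact pw_sum t)
    (fun j => if j.2 then ind j.1 else fun v => if v ∈ Bd then ind j.1 v else p)
    (fun j => if j.2 then B2 else B1)
    (by
      rintro ⟨o, b⟩
      cases b
      · have := sol_fix E L hL p U z x h1 h2 h2' hp0 h3 hU Bd o
        rw [← hB1] at this
        exact this
      · have := sol_int E L hL o
        rw [← hB2] at this
        exact this)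
  obtain ⟨D, iD, z, x, h1, h2, h3, h4, h6⟩ := hmix
  have hsplit : ∀ f : (V → Bool) × Bool → ℝ,
      ∑ j : (V → Bool) × Bool, (pw t j.1 * (if j.2 then τ else 1 - τ)) * f j =
      τ * ∑ o, pw t o * f (o, true) + (1 - τ) * ∑ o, pw t o * f (o, false) := by
    intro f
    rw [Fintype.sum_prod_type, Finset.mul_sum, Finset.mul_sum, ← Finset.sum_add_distrib]
    refine Finset.sum_congr rfl fun o _ => ?_
    rw [Fintype.sum_bool]
    simp only [if_true, Bool.false_eq_true, if_false]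
    ring
  refine ⟨D, iD, z, x, h1, h2, h3, fun v => ?_, ?_⟩
  · rw [← h4 v]
    beta_reduce
    rw [hsplit (fun j => (if j.2 then ind j.1 else
      fun v => if v ∈ Bd then ind j.1 v else p) v)]
    simp only [if_true, Bool.false_eq_true, if_false]
    rw [pw_one]
    by_cases hv : v ∈ Bd
    · simp only [if_pos hv]
      rw [pw_one, ht]
      beta_reduce
      rw [if_pos hv]
      ring
    · simp only [if_neg hv]
      rw [← Finset.sum_mul, pw_sum, ht]
      beta_reduce
      rw [if_neg hv]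
      field_simp
      ring
  · refine h6.trans ?_
    rw [hsplit (fun j => if j.2 then B2 else B1)]
    simp only [if_true, Bool.false_eq_true, if_false]
    rw [← Finset.sum_mul, ← Finset.sum_mul, pw_sum]
    have : 0 ≤ τ * B1 := mul_nonneg hτ.le hB10
    linarith

/-- All integral points are excluded if there is no small vertex cover. -/
theorem full_ok (E : Finset (V × V)) (L B : ℝ) (hL : 1 ≤ L)
    (h : ∀ C : Finset V, (∀ e ∈ E, e.1 ∈ C ∨ e.2 ∈ C) → B < C.card) :
    (full ((univ : Finset V).toList.map fun v => (v, true))).Proves (Relax E L B) Set.univ := by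
  refine full_proves _ _ _ ?_
  rintro μ - h01 ⟨D, iD, z, x, h1, h2, h3, h4, h5⟩
  have h01' : ∀ v, μ v true ≤ 0 ∨ 1 ≤ μ v true := fun v => h01 (v, true) (by simp)
  have hnn : ∀ v, 0 ≤ x v ⬝ᵥ x v := fun v => Finset.sum_nonneg fun d _ => mul_self_nonneg _
  have hle : ∀ v, (x v - z) ⬝ᵥ (x v - z) = 1 - x v ⬝ᵥ x v := by
    intro v
    rw [sub_dotProduct, dotProduct_sub, dotProduct_sub, h1, dotProduct_comm (x v) z, ← h2]
    ring
  have hle1 : ∀ v, x v ⬝ᵥ x v ≤ 1 := by
    intro v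
    have h8 := hle v
    have h9 : 0 ≤ (x v - z) ⬝ᵥ (x v - z) := Finset.sum_nonneg fun d _ => mul_self_nonneg _
    linarith
  obtain ⟨S, hS⟩ : ∃ S : Finset V, S = univ.filter fun v => 1 ≤ μ v true := ⟨_, rfl⟩
  have hin : ∀ v ∈ S, x v = z := by
    intro v hv
    rw [hS, mem_filter, (h4 v).1] at hv
    have h8 : x v ⬝ᵥ x v = 1 := le_antisymm (hle1 v) hv.2
    have h9 : (x v - z) ⬝ᵥ (x v - z) = 0 := by rw [hle, h8, sub_self]
    have h10 := dotProduct_self_eq_zero.1 h9
    exact sub_eq_zero.1 h10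
  have hout : ∀ v ∉ S, x v = 0 := by
    intro v hv
    rw [hS, mem_filter, not_and] at hv
    have h8 := (h01' v).resolve_right (hv (mem_univ v))
    rw [(h4 v).1] at h8
    exact dotProduct_self_eq_zero.1 (le_antisymm h8 (hnn v))
  have hself : ∀ v, x v ⬝ᵥ x v = if v ∈ S then 1 else 0 := by
    intro v
    by_cases hv : v ∈ S
    · rw [if_pos hv, hin v hv, h1]
    · rw [if_neg hv, hout v hv, dotProduct_zero]
  have hsum : ∑ v, x v ⬝ᵥ x v = S.card := by
    simp only [hself]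
    rw [Finset.sum_ite_mem, Finset.univ_inter, Finset.sum_const, nsmul_eq_mul, mul_one]
  have hunc : ∀ e : V × V, (z - x e.1) ⬝ᵥ (z - x e.2) = if e.1 ∈ S ∨ e.2 ∈ S then 0 else 1 := by
    intro e
    by_cases he1 : e.1 ∈ S
    · rw [if_pos (Or.inl he1), hin _ he1, sub_self, zero_dotProduct]
    · by_cases he2 : e.2 ∈ S
      · rw [if_pos (Or.inr he2), hin _ he2, sub_self, dotProduct_zero]
      · rw [if_neg (not_or.2 ⟨he1, he2⟩), hout _ he1, hout _ he2, sub_zero, h1]
  have hunc2 : ∑ e ∈ E, (z - x e.1) ⬝ᵥ (z - x e.2) =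
      (E.filter fun e => ¬(e.1 ∈ S ∨ e.2 ∈ S)).card := by
    simp only [hunc]
    rw [← Finset.sum_boole]
    refine Finset.sum_congr rfl fun e _ => ?_
    by_cases he : e.1 ∈ S ∨ e.2 ∈ S
    · rw [if_pos he, if_neg (not_not.2 he)]
    · rw [if_neg he, if_pos he]
  rw [hsum, hunc2] at h5
  have h6 := h (S ∪ (E.filter fun e => ¬(e.1 ∈ S ∨ e.2 ∈ S)).image Prod.fst) (by
    intro e he
    by_cases hc : e.1 ∈ S ∨ e.2 ∈ S
    · rcases hc with hc | hc
      · exact Or.inl (mem_union_left _ hc)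
      · exact Or.inr (mem_union_left _ hc)
    · refine Or.inl (mem_union_right _ (mem_image.2 ⟨e, mem_filter.2 ⟨he, hc⟩, rfl⟩)))
  have h7 : ((S ∪ (E.filter fun e => ¬(e.1 ∈ S ∨ e.2 ∈ S)).image Prod.fst).card : ℝ) ≤
      S.card + (E.filter fun e => ¬(e.1 ∈ S ∨ e.2 ∈ S)).card := by
    exact_mod_cast (card_union_le _ _).trans (Nat.add_le_add_left Finset.card_image_le _)
  have h8 : (1 : ℝ) * (E.filter fun e => ¬(e.1 ∈ S ∨ e.2 ∈ S)).card ≤
      L * (E.filter fun e => ¬(e.1 ∈ S ∨ e.2 ∈ S)).card :=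
    mul_le_mul_of_nonneg_right hL (Nat.cast_nonneg _)
  linarith

end

end Pool.Agent.W888.VX
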