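import Pool.Agent.W888.SX.Cube

set_option autoImplicit false
set_option linter.unusedSectionVars false

/-!
Two large subsets of the cube are joined by a positive fraction of the pairs of almost antipodal
points.
-/

namespace Pool.Agent.W888.VX

open Finset
open Pool.Agent.H562R2 (sg sum_prod_cube)
open Pool.Agent.W888.SX (cubeWt ip ip_mean ip_sq_sum)

/-- weighted means with three terms -/
theorem amgm3 (u v w : ℝ) (hu : 0 ≤ u) (hv : 0 ≤ v) (hw : 0 ≤ w) (i j k C : ℕ) (hC : 0 < C)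
    (h : i + j + k = C) :
    u ^ i * v ^ j * w ^ k ≤ (i * u ^ C + j * v ^ C + k * w ^ C) / C := by
  have hC0 : (0 : ℝ) < C := by exact_mod_cast hC
  have hs : (i : ℝ) / C + j / C + k / C = 1 := by
    rw [← add_div, ← add_div, div_eq_one_iff_eq hC0.ne', ← h]
    push_cast
    ring
  have h1 := Real.geom_mean_le_arith_mean3_weighted (w₁ := (i : ℝ) / C) (w₂ := (j : ℝ) / C)
    (w₃ := (k : ℝ) / C) (p₁ := u ^ C) (p₂ := v ^ C) (p₃ := w ^ C) (by positivity) (by positivity)
    (by positivity) (by positivity) (by positivity) (by positivity) hs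
  have h2 : ∀ (a : ℝ), 0 ≤ a → ∀ m : ℕ, (a ^ C) ^ ((m : ℝ) / C) = a ^ m := by
    intro a ha m
    rw [← Real.rpow_natCast a C, ← Real.rpow_mul ha, mul_div_cancel₀ _ hC0.ne', Real.rpow_natCast]
  rw [h2 u hu, h2 v hv, h2 w hw] at h1
  refine h1.trans (le_of_eq ?_)
  field_simp

theorem pair_le (a0 a1 b0 b1 : ℝ) (ha0 : 0 ≤ a0) (ha1 : 0 ≤ a1) (hb0 : 0 ≤ b0) (hb1 : 0 ≤ b1)
    (s t C : ℕ) (hC : 0 < C) (hs : s ≤ C) (ht : t ≤ C) :
    (a1 ^ s * a0 ^ (C - s)) * (b1 ^ t * b0 ^ (C - t)) ≤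
      ((2 * C - s - t - |(s : ℝ) - t|) * (a0 ^ C * b0 ^ C) +
        (s + t - |(s : ℝ) - t|) * (a1 ^ C * b1 ^ C) +
        (|(s : ℝ) - t| + (s - t)) * (a1 ^ C * b0 ^ C) +
        (|(s : ℝ) - t| - (s - t)) * (a0 ^ C * b1 ^ C)) / (2 * C) := by
  have hC0 : (0 : ℝ) < C := by exact_mod_cast hC
  rcases le_total t s with hst | hst
  · obtain ⟨d, rfl⟩ := Nat.exists_eq_add_of_le hst
    obtain ⟨e, rfl⟩ := Nat.exists_eq_add_of_le hs
    have h1 := amgm3 (a0 * b0) (a1 * b0) (a1 * b1) (by positivity) (by positivity) (by positivity)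
      e d t (t + d + e) hC (by ring)
    have e1 : t + d + e - (t + d) = e := by omega
    have e2 : t + d + e - t = d + e := by omega
    have e3 : |((t + d : ℕ) : ℝ) - t| = d := by
      push_cast
      rw [add_sub_cancel_left, abs_of_nonneg (Nat.cast_nonneg _)]
    rw [e1, e2, e3]
    calc (a1 ^ (t + d) * a0 ^ e) * (b1 ^ t * b0 ^ (d + e)) =
          (a0 * b0) ^ e * (a1 * b0) ^ d * (a1 * b1) ^ t := by ring
      _ ≤ _ := h1
      _ = _ := by
          simp only [mul_pow]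
          rw [div_eq_div_iff hC0.ne' (mul_ne_zero two_ne_zero hC0.ne')]
          push_cast
          ring
  · obtain ⟨d, rfl⟩ := Nat.exists_eq_add_of_le hst
    obtain ⟨e, rfl⟩ := Nat.exists_eq_add_of_le ht
    have h1 := amgm3 (a0 * b0) (a0 * b1) (a1 * b1) (by positivity) (by positivity) (by positivity)
      e d s (s + d + e) hC (by ring)
    have e1 : s + d + e - (s + d) = e := by omega
    have e2 : s + d + e - s = d + e := by omega
    have e3 : |(s : ℝ) - (s + d : ℕ)| = d := by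
      push_cast
      rw [sub_add_cancel_left, abs_neg, abs_of_nonneg (Nat.cast_nonneg _)]
    rw [e1, e2, e3]
    calc (a1 ^ s * a0 ^ (d + e)) * (b1 ^ (s + d) * b0 ^ e) =
          (a0 * b0) ^ e * (a0 * b1) ^ d * (a1 * b1) ^ s := by ring
      _ ≤ _ := h1
      _ = _ := by
          simp only [mul_pow]
          rw [div_eq_div_iff hC0.ne' (mul_ne_zero two_ne_zero hC0.ne')]
          push_cast
          ring

/-- the sum of the signs -/
def sI {C : ℕ} (σ : Fin C → Bool) : ℝ := ip (fun _ => false) σ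

theorem sI_eq {C : ℕ} (σ : Fin C → Bool) :
    sI σ = C - 2 * (univ.filter fun c => σ c = true).card := by
  unfold sI ip
  have h1 : ∀ i : Fin C, sg false * sg (σ i) = 1 - 2 * (if σ i = true then 1 else 0) := by
    intro i
    cases σ i
    · simp [sg]
    · simp [sg]
      norm_num
  simp only [h1]
  rw [Finset.sum_sub_distrib, ← Finset.mul_sum, Finset.sum_boole, Finset.sum_const, card_univ,
    Fintype.card_fin, nsmul_eq_mul, mul_one]

theorem sI_sum (C : ℕ) : ∑ σ : Fin C → Bool, sI σ = 0 := by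
  have h1 := ip_mean (R := C) (1 / 2) (fun _ => false)
  have h2 : ∀ y : Fin C → Bool, cubeWt (1 / 2) (fun _ => false) y = (1 / 2 : ℝ) ^ C := by
    intro y
    unfold cubeWt
    have h3 : ∀ i : Fin C, (if false = y i then 1 - (1 / 2 : ℝ) else 1 / 2) = 1 / 2 := by
      intro i
      split_ifs <;> norm_num
    simp only [h3]
    rw [Finset.prod_const, card_univ, Fintype.card_fin]
  simp only [h2] at h1
  rw [← Finset.mul_sum] at h1
  have h3 : ((1 / 2 : ℝ) ^ C) * ∑ σ : Fin C → Bool, sI σ = 0 := by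
    unfold sI
    rw [h1]
    norm_num
  rcases mul_eq_zero.1 h3 with h | h
  · exact absurd h (by positivity)
  · exact h

theorem sI_sq_sum (C : ℕ) : ∑ σ : Fin C → Bool, sI σ ^ 2 = C * 2 ^ C := ip_sq_sum _

theorem prod_pow (C : ℕ) (a0 a1 : ℝ) (σ : Fin C → Bool) :
    ∏ c, (if σ c = true then a1 else a0) =
      a1 ^ (univ.filter fun c => σ c = true).card *
        a0 ^ (C - (univ.filter fun c => σ c = true).card) := by
  rw [Finset.prod_ite, Finset.prod_const, Finset.prod_const, Finset.filter_not,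
    Finset.card_sdiff_of_subset (Finset.filter_subset _ _), card_univ, Fintype.card_fin]

theorem pow_eq_sum (C : ℕ) (a0 a1 : ℝ) :
    (a0 + a1) ^ C = ∑ σ : Fin C → Bool, ∏ c, (if σ c = true then a1 else a0) := by
  rw [sum_prod_cube (fun (_ : Fin C) b => if b = true then a1 else a0), add_comm a0 a1]
  simp

/-- the inequality for two points -/
theorem two_point (C : ℕ) (ε : ℝ) (hε : 0 < ε) (hε2 : ε ≤ 1 / 2) (hC : 1 ≤ 2 * ε ^ 2 * C)
    (a0 a1 b0 b1 : ℝ) (ha0 : 0 ≤ a0) (ha1 : 0 ≤ a1) (hb0 : 0 ≤ b0) (hb1 : 0 ≤ b1) :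
    ((a0 + a1) / 2) ^ C * ((b0 + b1) / 2) ^ C ≤
      (1 - ε) / 2 * (a0 ^ C * b0 ^ C + a1 ^ C * b1 ^ C) +
        ε / 2 * (a0 ^ C * b1 ^ C + a1 ^ C * b0 ^ C) := by
  have hCpos : 0 < C := by
    rcases Nat.eq_zero_or_pos C with h | h
    · rw [h] at hC
      norm_num at hC
    · exact h
  have hC0 : (0 : ℝ) < C := by exact_mod_cast hCpos
  obtain ⟨X, hX⟩ : ∃ X : ℝ, X = a0 ^ C * b0 ^ C + a1 ^ C * b1 ^ C := ⟨_, rfl⟩
  obtain ⟨Y, hY⟩ : ∃ Y : ℝ, Y = a0 ^ C * b1 ^ C + a1 ^ C * b0 ^ C := ⟨_, rfl⟩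
  rw [← hX, ← hY]
  rcases le_total Y X with hXY | hXY
  · have h1 : ∀ a b : ℝ, 0 ≤ a → 0 ≤ b → ((a + b) / 2) ^ C ≤ (a ^ C + b ^ C) / 2 := by
      intro a b ha hb
      have h2 := add_pow_le ha hb C
      rw [div_pow, div_le_iff₀ (by positivity)]
      refine h2.trans (le_of_eq ?_)
      obtain ⟨k, rfl⟩ := Nat.exists_eq_succ_of_ne_zero hCpos.ne'
      rw [Nat.succ_sub_one, pow_succ 2 k]
      ring
    have h2 := mul_le_mul (h1 a0 a1 ha0 ha1) (h1 b0 b1 hb0 hb1) (by positivity) (by positivity)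
    have h3 : (a0 ^ C + a1 ^ C) / 2 * ((b0 ^ C + b1 ^ C) / 2) = (X + Y) / 4 := by
      rw [hX, hY]
      ring
    rw [h3] at h2
    refine h2.trans ?_
    nlinarith
  · have h4 : ((2 : ℝ) ^ C * 2 ^ C) * (((a0 + a1) / 2) ^ C * ((b0 + b1) / 2) ^ C) =
        ∑ σ : Fin C → Bool, ∑ τ : Fin C → Bool,
          (∏ c, (if σ c = true then a1 else a0)) * (∏ c, (if τ c = true then b1 else b0)) := by
      rw [← Finset.sum_mul_sum, ← pow_eq_sum, ← pow_eq_sum, div_pow, div_pow]
      field_simp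
    have h5 : ∀ σ τ : Fin C → Bool,
        (∏ c, (if σ c = true then a1 else a0)) * (∏ c, (if τ c = true then b1 else b0)) ≤
        (C * X + (sI σ + sI τ) / 2 * (a0 ^ C * b0 ^ C - a1 ^ C * b1 ^ C) +
          (sI τ - sI σ) / 2 * (a1 ^ C * b0 ^ C - a0 ^ C * b1 ^ C) +
          ((sI σ ^ 2 + sI τ ^ 2 - 2 * (sI σ * sI τ)) / (8 * (C * ε)) + C * ε / 2) * (Y - X)) /
          (2 * C) := by
      intro σ τ
      rw [prod_pow, prod_pow]
      refine (pair_le a0 a1 b0 b1 ha0 ha1 hb0 hb1 _ _ C hCpos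
        (by simpa using Finset.card_le_univ (univ.filter fun c : Fin C => σ c = true))
        (by simpa using Finset.card_le_univ (univ.filter fun c : Fin C => τ c = true))).trans ?_
      obtain ⟨s, hs⟩ : ∃ s : ℝ, s = ((univ.filter fun c => σ c = true).card : ℝ) := ⟨_, rfl⟩
      obtain ⟨t, ht⟩ : ∃ t : ℝ, t = ((univ.filter fun c => τ c = true).card : ℝ) := ⟨_, rfl⟩
      rw [sI_eq, sI_eq, ← hs, ← ht]
      refine div_le_div_of_nonneg_right ?_ (by positivity)
      have h6 : |s - t| ≤ (((C : ℝ) - 2 * s) ^ 2 + (C - 2 * t) ^ 2 -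
          2 * ((C - 2 * s) * (C - 2 * t))) / (8 * (C * ε)) + C * ε / 2 := by
        have h7 : (((C : ℝ) - 2 * s) ^ 2 + (C - 2 * t) ^ 2 -
          2 * ((C - 2 * s) * (C - 2 * t))) = 4 * |s - t| ^ 2 := by
          rw [sq_abs]
          ring
        rw [h7]
        have h8 : 0 < C * ε := by positivity
        have h9 : 4 * |s - t| ^ 2 / (8 * (C * ε)) + C * ε / 2 - |s - t| =
            (|s - t| - C * ε) ^ 2 / (2 * (C * ε)) := by
          field_simp
          ring
        have h10 : 0 ≤ (|s - t| - C * ε) ^ 2 / (2 * (C * ε)) := by positivity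
        linarith
      have h11 := mul_le_mul_of_nonneg_right h6 (sub_nonneg.2 hXY)
      calc _ = C * X + ((C - 2 * s) + (C - 2 * t)) / 2 * (a0 ^ C * b0 ^ C - a1 ^ C * b1 ^ C) +
          ((C - 2 * t) - (C - 2 * s)) / 2 * (a1 ^ C * b0 ^ C - a0 ^ C * b1 ^ C) +
          |s - t| * (Y - X) := by
            rw [hX, hY]
            ring
        _ ≤ _ := by linarith
    have h6 := h4.trans_le (Finset.sum_le_sum fun σ _ => Finset.sum_le_sum fun τ _ => h5 σ τ)
    have h7 : ∑ σ : Fin C → Bool, ∑ τ : Fin C → Bool,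
        (C * X + (sI σ + sI τ) / 2 * (a0 ^ C * b0 ^ C - a1 ^ C * b1 ^ C) +
          (sI τ - sI σ) / 2 * (a1 ^ C * b0 ^ C - a0 ^ C * b1 ^ C) +
          ((sI σ ^ 2 + sI τ ^ 2 - 2 * (sI σ * sI τ)) / (8 * (C * ε)) + C * ε / 2) * (Y - X)) /
          (2 * C) =
        ((2 : ℝ) ^ C * 2 ^ C) * (C * X + (2 * C / (8 * (C * ε)) + C * ε / 2) * (Y - X)) /
          (2 * C) := by
      simp only [← Finset.sum_div]
      congr 1
      have e1 : ∀ σ τ : Fin C → Bool,
          (C * X + (sI σ + sI τ) / 2 * (a0 ^ C * b0 ^ C - a1 ^ C * b1 ^ C) +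
          (sI τ - sI σ) / 2 * (a1 ^ C * b0 ^ C - a0 ^ C * b1 ^ C) +
          ((sI σ ^ 2 + sI τ ^ 2 - 2 * (sI σ * sI τ)) / (8 * (C * ε)) + C * ε / 2) * (Y - X)) =
          (C * X + C * ε / 2 * (Y - X)) +
          sI σ * ((a0 ^ C * b0 ^ C - a1 ^ C * b1 ^ C) / 2 -
            (a1 ^ C * b0 ^ C - a0 ^ C * b1 ^ C) / 2) +
          sI τ * ((a0 ^ C * b0 ^ C - a1 ^ C * b1 ^ C) / 2 +
            (a1 ^ C * b0 ^ C - a0 ^ C * b1 ^ C) / 2) +
          sI σ ^ 2 * ((Y - X) / (8 * (C * ε))) + sI τ ^ 2 * ((Y - X) / (8 * (C * ε))) -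
          sI σ * (sI τ * (2 * ((Y - X) / (8 * (C * ε))))) := by
        intro σ τ
        ring
      simp only [e1, Finset.sum_add_distrib, Finset.sum_sub_distrib, ← Finset.sum_mul,
        ← Finset.mul_sum, sI_sum, sI_sq_sum, Finset.sum_const, card_univ, Fintype.card_fun,
        Fintype.card_bool, Fintype.card_fin, nsmul_eq_mul]
      push_cast
      ring
    rw [h7] at h6
    have h8 : ((2 : ℝ) ^ C * 2 ^ C) * (C * X + (2 * C / (8 * (C * ε)) + C * ε / 2) * (Y - X)) /
          (2 * C) ≤ ((2 : ℝ) ^ C * 2 ^ C) * ((1 - ε) / 2 * X + ε / 2 * Y) := by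
      rw [mul_div_assoc]
      refine mul_le_mul_of_nonneg_left ?_ (by positivity)
      rw [div_le_iff₀ (by positivity)]
      have h9 : 2 * (C : ℝ) / (8 * (C * ε)) + C * ε / 2 ≤ C * ε := by
        have h10 : 2 * (C : ℝ) / (8 * (C * ε)) = 1 / (4 * ε) := by
          field_simp
          ring
        rw [h10]
        have h11 : 1 / (4 * ε) ≤ C * ε / 2 := by
          rw [div_le_div_iff₀ (by positivity) (by norm_num)]
          nlinarith
        linarith
      have h10 := mul_le_mul_of_nonneg_right h9 (sub_nonneg.2 hXY)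
      linarith
    have h9 := h6.trans h8
    exact le_of_mul_le_mul_left h9 (by positivity)

theorem sum_cons {R : ℕ} (F : (Fin (R + 1) → Bool) → ℝ) :
    ∑ x, F x = ∑ x : Fin R → Bool, F (Fin.cons false x) + ∑ x : Fin R → Bool, F (Fin.cons true x) := by
  rw [← (Fin.consEquiv fun _ : Fin (R + 1) => Bool).sum_comp, Fintype.sum_prod_type,
    Fintype.sum_bool, add_comm]
  rfl

theorem cubeWt_cons {R : ℕ} (ε : ℝ) (b c : Bool) (x y : Fin R → Bool) :
    cubeWt ε (Fin.cons b x : Fin (R + 1) → Bool) (Fin.cons c y) =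
      (if b = c then 1 - ε else ε) * cubeWt ε x y := by
  unfold cubeWt
  rw [Fin.prod_univ_succ]
  simp only [Fin.cons_zero, Fin.cons_succ]

/-- Two subsets of the cube of densities `α` and `β` are joined by at least `(α β) ^ C` of the
almost antipodal pairs. -/
theorem rev (C : ℕ) (ε : ℝ) (hε : 0 < ε) (hε2 : ε ≤ 1 / 2) (hC : 1 ≤ 2 * ε ^ 2 * C) :
    ∀ (R : ℕ) (f g : (Fin R → Bool) → ℝ), (∀ x, 0 ≤ f x) → (∀ x, f x ≤ 1) → (∀ x, 0 ≤ g x) →
      (∀ x, g x ≤ 1) →
      ((∑ x, f x) / 2 ^ R) ^ C * ((∑ x, g x) / 2 ^ R) ^ C ≤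
        (∑ x, ∑ y, f x * cubeWt (1 - ε) x y * g y) / 2 ^ R := by
  have hCpos : 0 < C := by
    rcases Nat.eq_zero_or_pos C with h | h
    · rw [h] at hC
      norm_num at hC
    · exact h
  intro R
  induction R with
  | zero =>
    intro f g hf0 hf1 hg0 hg1
    simp only [Fintype.sum_unique, pow_zero, div_one]
    have h1 : ∀ x y : Fin 0 → Bool, cubeWt (1 - ε) x y = 1 := by
      intro x y
      unfold cubeWt
      simp
    rw [h1, mul_one]
    exact mul_le_mul (pow_le_of_le_one (hf0 _) (hf1 _) hCpos.ne')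
      (pow_le_of_le_one (hg0 _) (hg1 _) hCpos.ne') (pow_nonneg (hg0 _) _) (hf0 _)
  | succ R ih =>
    intro f g hf0 hf1 hg0 hg1
    obtain ⟨α, hα⟩ : ∃ α : Bool → ℝ, α = fun b => (∑ x : Fin R → Bool, f (Fin.cons b x)) / 2 ^ R :=
      ⟨_, rfl⟩
    obtain ⟨β, hβ⟩ : ∃ β : Bool → ℝ, β = fun b => (∑ x : Fin R → Bool, g (Fin.cons b x)) / 2 ^ R :=
      ⟨_, rfl⟩
    have hα0 : ∀ b, 0 ≤ α b := fun b => by
      rw [hα]
      exact div_nonneg (Finset.sum_nonneg fun x _ => hf0 _) (by positivity)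
    have hβ0 : ∀ b, 0 ≤ β b := fun b => by
      rw [hβ]
      exact div_nonneg (Finset.sum_nonneg fun x _ => hg0 _) (by positivity)
    have h1 : (∑ x, f x) / 2 ^ (R + 1) = (α false + α true) / 2 := by
      rw [sum_cons, hα, pow_succ]
      field_simp
    have h2 : (∑ x, g x) / 2 ^ (R + 1) = (β true + β false) / 2 := by
      rw [sum_cons, hβ, pow_succ]
      field_simp
      ring
    have h3 : ∀ b c : Bool, α b ^ C * β c ^ C ≤ (∑ x : Fin R → Bool, ∑ y : Fin R → Bool,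
        f (Fin.cons b x) * cubeWt (1 - ε) x y * g (Fin.cons c y)) / 2 ^ R := by
      intro b c
      rw [hα, hβ]
      exact ih (fun x => f (Fin.cons b x)) (fun x => g (Fin.cons c x)) (fun _ => hf0 _)
        (fun _ => hf1 _) (fun _ => hg0 _) (fun _ => hg1 _)
    have h4 : (∑ x, ∑ y, f x * cubeWt (1 - ε) x y * g y) / 2 ^ (R + 1) =
        ε / 2 * ((∑ x : Fin R → Bool, ∑ y : Fin R → Bool,
          f (Fin.cons false x) * cubeWt (1 - ε) x y * g (Fin.cons false y)) / 2 ^ R +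
          (∑ x : Fin R → Bool, ∑ y : Fin R → Bool,
          f (Fin.cons true x) * cubeWt (1 - ε) x y * g (Fin.cons true y)) / 2 ^ R) +
        (1 - ε) / 2 * ((∑ x : Fin R → Bool, ∑ y : Fin R → Bool,
          f (Fin.cons false x) * cubeWt (1 - ε) x y * g (Fin.cons true y)) / 2 ^ R +
          (∑ x : Fin R → Bool, ∑ y : Fin R → Bool,
          f (Fin.cons true x) * cubeWt (1 - ε) x y * g (Fin.cons false y)) / 2 ^ R) := by
      have h5 : ∀ b c : Bool, ∑ x : Fin R → Bool, ∑ y : Fin R → Bool,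
          f (Fin.cons b x) * cubeWt (1 - ε) (Fin.cons b x : Fin (R + 1) → Bool) (Fin.cons c y) *
            g (Fin.cons c y) =
          (if b = c then ε else 1 - ε) * ∑ x : Fin R → Bool, ∑ y : Fin R → Bool,
            f (Fin.cons b x) * cubeWt (1 - ε) x y * g (Fin.cons c y) := by
        intro b c
        rw [Finset.mul_sum]
        refine Finset.sum_congr rfl fun x _ => ?_
        rw [Finset.mul_sum]
        refine Finset.sum_congr rfl fun y _ => ?_
        rw [cubeWt_cons]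
        split_ifs <;> ring
      rw [sum_cons]
      simp only [sum_cons (R := R), Finset.sum_add_distrib, h5]
      rw [pow_succ]
      simp only [if_true, Bool.false_eq_true, Bool.true_eq_false, if_false]
      field_simp
      ring
    rw [h1, h2, h4]
    refine (two_point C ε hε hε2 hC (α false) (α true) (β true) (β false) (hα0 _) (hα0 _) (hβ0 _)
      (hβ0 _)).trans ?_
    have e1 := h3 false true
    have e2 := h3 true false
    have e3 := h3 false false
    have e4 := h3 true true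
    have e5 : 0 ≤ (1 - ε) / 2 := by linarith
    have e6 : 0 ≤ ε / 2 := by linarith
    have e7 := mul_le_mul_of_nonneg_left (add_le_add e1 e2) e5
    have e8 := mul_le_mul_of_nonneg_left (add_le_add e3 e4) e6
    linarith

end Pool.Agent.W888.VX
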